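import Pool.Agent.Lib.MP_0d9445_pr.Fx.Surf
import Pool.Agent.Lib.MP_0d9445_pr.Bd.Main
import Pool.Agent.Lib.MP_0d9445_pr.Bd.Ex

/-! The assembly for the disk of given area. -/

open MeasureTheory ProbabilityTheory Set Filter Topology Real LQ.Met
open scoped NNReal ENNReal

noncomputable section

namespace Pool.Agent.Lib.MP_0d9445_pr.Fx

open Bd CR BM AS

variable {M : Model} {Ω : Type} [MeasurableSpace Ω] {P : Measure Ω} {d : Ω → Met}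
  {m : Ω → Measure ℂ} {ℓ a : ℝ} {χ χi : ℂ → ℂ} {O E : Set ℂ} {h : Ω → Field} {f : Ω → ℂ → ℝ}
  {Y : ℝ≥0 → Ω → Set ℂ} {A κ : ℝ → ℝ}

/-- what the half-plane argument needs of a surface embedded by the chart `c` -/
def Pack (M : Model) (c : Chart χ χi O E) (P : Measure Ω) (d : Ω → Met) (m : Ω → Measure ℂ) :
    Prop :=
  SoftB M ∧ (∀ᵐ ω ∂P, Ex.Loc (m ω) O) ∧
    ACH M P (fun ω => (c.pull (d ω), (m ω).map (kap χi O E))) (Metric.sphere 0 1) ∧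
    ∃ P₀ h φ g f f₁ Z, IsSurfVia M.γ M.ξ M.D M.μ χ O P h f d m ∧
      BSurf0 M P P₀ h φ g f₁ Z (fun ω => c.pull (d ω)) fun ω => (m ω).map (kap χi O E)

theorem pack_wedge (F : M.All) (R : RefOK M) [IsProbabilityMeasure P]
    (hc : IsWedge M.γ M.Q P h f) (hS : IsSurfVia M.γ M.ξ M.D M.μ id UH P h f d m) :
    Pack M chart_id P d m := by
  obtain ⟨φ, g, f₁, h1, h2⟩ := wedge_bsurf F hc (chart_id.surf hS) (pull_diag chart_id hS)
  exact ⟨h1.softB F, ae_loc F R (Or.inl ⟨hc, rfl, hS⟩), h1.ach h2, _, _, _, _, _, _, _, hS,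
    h1.toBSurf0⟩

theorem pack_disk (F : M.All) (R : RefOK M) [IsProbabilityMeasure P] (hℓ : 0 < ℓ)
    (hc : IsDisk M.γ M.Q ℓ P h f)
    (hS : IsSurfVia M.γ M.ξ M.D M.μ cayley (Metric.ball 0 1) P h f d m) :
    Pack M chart_cayley P d m := by
  obtain ⟨P₀, φ, g, f₁, h1, h2⟩ :=
    disk_bsurf F hℓ hc (chart_cayley.surf hS) (pull_diag chart_cayley hS)
  exact ⟨h1.softB F, ae_loc F R (Or.inr ⟨⟨ℓ, hℓ, hc⟩, rfl, hS⟩), h1.ach h2, _, _, _, _, _, _, _, hS,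
    h1.toBSurf0⟩

/-- the disk of given area, on a larger probability space -/
theorem pack_area (F : M.All) (R : RefOK M) [IsProbabilityMeasure P] (hℓ : 0 < ℓ)
    (hA : IsDiskArea M.γ M.ξ M.Q M.D M.μ ℓ a P d m) :
    ∃ (Ω' : Type) (_ : MeasurableSpace Ω') (k : Kernel Ω Ω') (_ : IsMarkovKernel k),
      Pack M chart_cayley (P ⊗ₘ k) (fun x => d x.1) fun x => m x.1 := by
  obtain ⟨md, mm, mass, Ω', _, _, P', h, f, d', m', hP', hD, hS, lim⟩ := hA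
  have L : Lim P P' d m d' m' a := ⟨md, mm, mass, ae_finite F R hD hS, lim⟩
  obtain ⟨soft, loc, ac, -⟩ := pack_disk F R hℓ hD hS
  obtain ⟨P₀, φ, g, s, c, w, H⟩ := exists_data hD
  have hU : ∀ t : ℝ, (⟨t, 1 / 2⟩ : ℂ) ∈ UH := fun t => by simp [UH]
  have ach : ACH M P (fun ω => (chart_cayley.pull (d ω),
      (m ω).map (kap cayleyInv (Metric.ball 0 1) {1}))) (Metric.sphere 0 1) := fun z hz => by
    obtain ⟨W, w1, w2, w3⟩ := ac z hz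
    obtain ⟨t, ht, hd⟩ : ∃ t : ℝ, |t| ≤ 1 / 4 ∧ z ∉ Metric.closedBall (⟨t, 1 / 2⟩ : ℂ) (1 / 8) := by
      refine ⟨if 0 ≤ z.re then -(1 / 4) else 1 / 4, by split_ifs <;> norm_num [abs_of_pos],
        fun k => ?_⟩
      have := abs_le.1 ((Complex.abs_re_le_norm _).trans (mem_closedBall_iff_norm.1 k))
      rw [Complex.sub_re] at this
      split_ifs at this with k' <;> simp only at this <;> linarith [this.1, this.2]
    obtain ⟨ψ, hψ⟩ := exists_dir (z₀ := ⟨t, 1 / 2⟩) rfl ht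
    obtain ⟨r, hr, hs⟩ := DblAux.exists_sq
      ((isOpen_osq W.1 W.2).inter Metric.isClosed_closedBall.isOpen_compl) ⟨w1, hd⟩
    have s1 : csq z r ⊆ UH := (hs.trans inter_subset_left).trans ((osq_subset_csq _ _).trans w2)
    have s2 : osq z r ⊆ csq z r := osq_subset_csq _ _
    exact ⟨(z, r), ⟨by simpa using hr, by simpa using hr⟩, s1,
      area_ac H hS L hψ (hU t) ((inst_closure (z, r)).trans s1)
        (disjoint_left.2 fun y k1 k2 => (hs (s2 k1)).2 (Metric.ball_subset_closedBall k2))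
        (Model.LDom.mono w3 (s2.trans (hs.trans inter_subset_left)))⟩
  obtain ⟨ψ, hψ⟩ := exists_dir (z₀ := ⟨0, 1 / 2⟩) rfl (by norm_num)
  obtain ⟨k, τ, hk, t1, a1, a2⟩ := area_couple H hS L hψ (hU 0)
  obtain ⟨Q₀, b⟩ := H.bsurf a1 a2
  refine ⟨Ω', inferInstance, k, hk, soft, ?_, fun z hz => ?_, _, _, _, _, _, _, _, a2, b⟩
  · filter_upwards [a2.area, ae_snd a1 hS.area, ae_snd a1 loc] with x e1 e2 e3
    refine e3.mono (C := ENNReal.ofReal (exp (2 * M.γ))) ENNReal.ofReal_ne_top ?_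
    rw [e1, e2, ← Measure.map_smul]
    exact Measure.map_mono (am_le hψ (H.contOn x.2) (t1 x.2)) chart_cayley.meas
  · obtain ⟨W, w1, w2, w3⟩ := ach z hz
    exact ⟨W, w1, w2, fun S k1 k2 => measure_eq_zero_iff_ae_notMem.2
      ((mp_fst k).quasiMeasurePreserving.ae (measure_eq_zero_iff_ae_notMem.1 (w3 S k1 k2)))⟩

/-- whatever follows from `Pack` holds for the disk of given area -/
theorem transfer (F : M.All) (R : RefOK M) [IsProbabilityMeasure P] (hℓ : 0 < ℓ)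
    (hA : IsDiskArea M.γ M.ξ M.Q M.D M.μ ℓ a P d m) (hY : ∀ l, IsPPP P d m l (Y l))
    {C : (ℕ → ℕ) → Met → Measure ℂ → (ℝ≥0 → Set ℂ) → Prop}
    (H : ∀ (Ω : Type) [MeasurableSpace Ω] (P : Measure Ω) [IsProbabilityMeasure P] (d : Ω → Met)
      (m : Ω → Measure ℂ) (Y : ℝ≥0 → Ω → Set ℂ), Pack M chart_cayley P d m →
      (∀ l, IsPPP P d m l (Y l)) →
        ∃ ψ, StrictMono ψ ∧ ∀ᵐ ω ∂P, C ψ (d ω) (m ω) fun l => Y l ω) :
    ∃ ψ, StrictMono ψ ∧ ∀ᵐ ω ∂P, C ψ (d ω) (m ω) fun l => Y l ω := by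
  obtain ⟨Ω', _, k, _, hp⟩ := pack_area F R hℓ hA
  obtain ⟨ψ, h1, h2⟩ := H _ _ _ _ (fun l x => Y l x.1) hp
    fun l => ppp_comp (hY l) hA.1 hA.2.1 (mp_fst k)
  exact ⟨ψ, h1, ae_of_fst (p := fun ω => C ψ (d ω) (m ω) fun l => Y l ω) h2⟩

theorem Pack.conv {c : Chart χ χi O E} (hp : Pack M c P d m) (F : M.All) (R : RefOK M)
    (hL : LocalLaw M A κ) (hY : ∀ l, IsPPP P d m l (Y l)) {l : ℕ → ℝ≥0}
    (hl : Tendsto l atTop atTop) : ∃ ψ : ℕ → ℕ, StrictMono ψ ∧ ∀ᵐ ω ∂P,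
      (MetOn (closure O) (d ω) ∧ Ex.Loc (m ω) O) ∧ DenseIn O (fun n => Y (l (ψ n)) ω) ∧ ∀ z ∈ O,
      ConvB O (d ω) (m ω) (fun n => Y (l (ψ n)) ω) (fun n => tau M.γ A κ (l (ψ n))) z := by
  obtain ⟨h1, h2, h3, _, _, _, _, _, _, _, hS, hB⟩ := hp
  obtain ⟨ψ, k1, k2⟩ := conv_of_chart F R hL h1 c hS hY hB h3 hl
  exact ⟨ψ, k1, (hS.metric.and h2).and k2⟩

theorem main (F : M.All) (R : RefOK M) (hL : LocalLaw M A κ) [IsProbabilityMeasure P] (hℓ : 0 < ℓ)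
    (hA : IsDiskArea M.γ M.ξ M.Q M.D M.μ ℓ a P d m) (hY : ∀ l, IsPPP P d m l (Y l))
    {l : ℕ → ℝ≥0} (hl : Tendsto l atTop atTop) : ∃ ψ : ℕ → ℕ, StrictMono ψ ∧ ∀ᵐ ω ∂P,
      (MetOn (closure (Metric.ball 0 1)) (d ω) ∧ Ex.Loc (m ω) (Metric.ball 0 1)) ∧
      DenseIn (Metric.ball 0 1) (fun n => Y (l (ψ n)) ω) ∧ ∀ z ∈ Metric.ball (0 : ℂ) 1,
      ConvB (Metric.ball 0 1) (d ω) (m ω) (fun n => Y (l (ψ n)) ω)
        (fun n => tau M.γ A κ (l (ψ n))) z :=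
  transfer F R hℓ hA hY (C := fun ψ d m Y =>
    (MetOn (closure (Metric.ball 0 1)) d ∧ Ex.Loc m (Metric.ball 0 1)) ∧
      DenseIn (Metric.ball 0 1) (fun n => Y (l (ψ n))) ∧ ∀ z ∈ Metric.ball (0 : ℂ) 1,
      ConvB (Metric.ball 0 1) d m (fun n => Y (l (ψ n))) (fun n => tau M.γ A κ (l (ψ n))) z)
    fun _ _ _ _ _ _ _ hp hY => hp.conv F R hL hY hl

end Pool.Agent.Lib.MP_0d9445_pr.Fx
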