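import Mathlib

/-! Conditioning on a null event along a line of shifts. -/

open MeasureTheory ProbabilityTheory Set Filter Topology
open scoped NNReal ENNReal

namespace Pool.Agent.Lib.MP_0d9445_pr.Fx

variable {Ω E : Type*} [MeasurableSpace Ω] [TopologicalSpace E] [PolishSpace E]
  [MeasurableSpace E] [BorelSpace E]

/-- a line of random variables `Z t` whose laws are comparable with the law of `Z 0`, along which
`A` increases at a speed controlled from below by `B` -/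
structure Line (P : Measure Ω) (Z : ℝ → Ω → E) (A B : E → ℝ) (κ K : ℝ) (r R : Ω → ℝ≥0∞) :
    Prop where
  contA : Continuous A
  contB : Continuous B
  κ_pos : 0 < κ
  K_pos : 0 < K
  mono : ∀ᵐ ω ∂P, ∀ s t : ℝ, -1 ≤ s → s ≤ t → t ≤ 1 →
    κ * B (Z 0 ω) * (t - s) ≤ A (Z t ω) - A (Z s ω) ∧
      A (Z t ω) - A (Z s ω) ≤ K * |A (Z 0 ω)| * (t - s)
  bd : ∀ᵐ ω ∂P, ∀ t ∈ Icc (-1 : ℝ) 1, B (Z t ω) ≤ K * B (Z 0 ω)
  mr : Measurable r
  mR : Measurable R
  r_pos : ∀ᵐ ω ∂P, r ω ≠ 0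
  R_fin : ∫⁻ ω, R ω ∂P ≠ ∞
  up : ∀ t ∈ Icc (-1 : ℝ) 1, ∀ F : E → ℝ≥0∞, Measurable F →
    ∫⁻ ω, F (Z 0 ω) ∂P ≤ ∫⁻ ω, F (Z t ω) * R ω ∂P
  lo : ∀ t ∈ Icc (-1 : ℝ) 1, ∀ F : E → ℝ≥0∞, Measurable F →
    ∫⁻ ω, F (Z t ω) * r ω ∂P ≤ ∫⁻ ω, F (Z 0 ω) ∂P

variable {P : Measure Ω} [IsProbabilityMeasure P] {lam : Measure E} [IsProbabilityMeasure lam]
  {Z : ℝ → Ω → E} {A B : E → ℝ} {a κ K : ℝ} {r R : Ω → ℝ≥0∞}

namespace CondAux

/-- time spent in a set -/
noncomputable def tm (Z : ℝ → Ω → E) (W : Set E) (ω : Ω) : ℝ≥0∞ :=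
  volume.restrict (Icc (-1 : ℝ) 1) {t | Z t ω ∈ W}

omit [TopologicalSpace E] [PolishSpace E] [BorelSpace E] in
theorem meas_tm (hZ : Measurable (Function.uncurry Z)) {W : Set E} (hW : MeasurableSet W) :
    Measurable (tm Z W) :=
  measurable_measure_prodMk_right (hZ hW)

omit [MeasurableSpace Ω] [TopologicalSpace E] [PolishSpace E] [MeasurableSpace E] [BorelSpace E] in
theorem tm_eq (W : Set E) (ω : Ω) : tm Z W ω = volume ({t | Z t ω ∈ W} ∩ Icc (-1 : ℝ) 1) :=
  Measure.restrict_apply' measurableSet_Icc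

omit [TopologicalSpace E] [PolishSpace E] [BorelSpace E] in
theorem tonelli (hZ : Measurable (Function.uncurry Z)) {W : Set E} (hW : MeasurableSet W)
    {ρ : Ω → ℝ≥0∞} (hρ : Measurable ρ) :
    ∫⁻ t in Icc (-1 : ℝ) 1, ∫⁻ ω, W.indicator 1 (Z t ω) * ρ ω ∂P =
      ∫⁻ ω, tm Z W ω * ρ ω ∂P := by
  have h1 : Measurable (W.indicator (1 : E → ℝ≥0∞)) := measurable_one.indicator hW
  rw [lintegral_lintegral_swap]
  · refine lintegral_congr fun ω => ?_
    have h2 : Measurable fun t => Z t ω := hZ.comp measurable_prodMk_right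
    refine (lintegral_mul_const _ (h1.comp h2)).trans ?_
    congr 1
    exact lintegral_indicator_one (h2 hW)
  · exact ((h1.comp hZ).mul (hρ.comp measurable_snd)).aemeasurable

omit [PolishSpace E] [BorelSpace E] in
theorem up_tm (H : Line P Z A B κ K r R) (hZ : Measurable (Function.uncurry Z)) {W : Set E}
    (hW : MeasurableSet W) : P (Z 0 ⁻¹' W) * 2 ≤ ∫⁻ ω, tm Z W ω * R ω ∂P := by
  have h0 : Measurable (Z 0) := hZ.comp measurable_prodMk_left
  rw [← tonelli hZ hW H.mR]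
  have e : P (Z 0 ⁻¹' W) * 2 = ∫⁻ _t in Icc (-1 : ℝ) 1, P (Z 0 ⁻¹' W) := by
    rw [setLIntegral_const, Real.volume_Icc]
    norm_num
  rw [e]
  refine setLIntegral_mono' measurableSet_Icc fun t ht => ?_
  refine le_trans (le_of_eq ?_) (H.up t ht _ (measurable_one.indicator hW))
  exact (lintegral_indicator_one (h0 hW)).symm

omit [PolishSpace E] [BorelSpace E] in
theorem lo_tm (H : Line P Z A B κ K r R) (hZ : Measurable (Function.uncurry Z)) {W : Set E}
    (hW : MeasurableSet W) : ∫⁻ ω, tm Z W ω * r ω ∂P ≤ P (Z 0 ⁻¹' W) * 2 := by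
  have h0 : Measurable (Z 0) := hZ.comp measurable_prodMk_left
  rw [← tonelli hZ hW H.mr]
  have e : P (Z 0 ⁻¹' W) * 2 = ∫⁻ _t in Icc (-1 : ℝ) 1, P (Z 0 ⁻¹' W) := by
    rw [setLIntegral_const, Real.volume_Icc]
    norm_num
  rw [e]
  refine setLIntegral_mono' measurableSet_Icc fun t ht => ?_
  refine le_trans (H.lo t ht _ (measurable_one.indicator hW)) (le_of_eq ?_)
  exact lintegral_indicator_one (h0 hW)

theorem port {ι : Type*} {l : Filter ι} [l.NeBot] {μ : ι → Measure Ω}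
    [∀ i, IsFiniteMeasure (μ i)] {X : Ω → E} (hX : Measurable X)
    (lim : ∀ F : BoundedContinuousFunction E ℝ,
      Tendsto (fun i => ∫ ω, F (X ω) ∂μ i) l (𝓝 (∫ e, F e ∂lam)))
    {F W : Set E} (hF : IsClosed F) (hW : IsOpen W) (h : F ⊆ W) {y : ℝ≥0∞}
    (hy : ∀ᶠ i in l, μ i (X ⁻¹' W) ≤ y) : lam F ≤ y := by
  rcases eq_or_ne y ∞ with rfl | hy0
  · exact le_top
  obtain ⟨f, f0, f1, f2⟩ := exists_bounded_zero_one_of_closed hW.isClosed_compl hF
    (disjoint_compl_left_iff_subset.2 h)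
  rw [← ENNReal.toReal_le_toReal (measure_ne_top _ _) hy0]
  have a1 : (lam F).toReal ≤ ∫ e, f e ∂lam := by
    rw [← measureReal_def, ← integral_indicator_one hF.measurableSet]
    refine integral_mono ((integrable_const _).indicator hF.measurableSet) (f.integrable lam)
      fun e => ?_
    by_cases he : e ∈ F
    · simp [he, f1 he]
    · simpa [he] using (f2 e).1
  refine a1.trans (le_of_tendsto (lim f) (hy.mono fun i hi => ?_))
  refine le_trans ?_ (ENNReal.toReal_mono hy0 hi)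
  rw [← measureReal_def, ← integral_indicator_one (hX hW.measurableSet)]
  refine integral_mono_of_nonneg (Eventually.of_forall fun ω => (f2 _).1)
    ((integrable_const _).indicator (hX hW.measurableSet)) (Eventually.of_forall fun ω => ?_)
  by_cases he : X ω ∈ W
  · simpa [he] using (f2 _).2
  · simp [he, f0 he]

theorem lower (H : Line P Z A B κ K r R) (hZ : Measurable (Function.uncurry Z))
    (hc : ∀ ω, Continuous fun t => Z t ω)
    {s : ℕ → ℝ} (hs : Tendsto s atTop (𝓝[>] 0))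
    (lim : ∀ F : BoundedContinuousFunction E ℝ, Tendsto (fun n : ℕ =>
      ∫ ω, F (Z 0 ω) ∂cond P {ω | |A (Z 0 ω) - a| < s n}) atTop (𝓝 (∫ e, F e ∂lam)))
    (pos : ∀ᵐ e ∂lam, 0 < B e) :
    ∃ c : ℝ≥0∞, c ≠ 0 ∧ ∀ᶠ ε : ℝ in 𝓝[>] 0,
      c * ENNReal.ofReal ε ≤ P {ω | |A (Z 0 ω) - a| < ε} := by
  have h0 : Measurable (Z 0) := hZ.comp measurable_prodMk_left
  have mS : ∀ ε : ℝ, MeasurableSet {e | |A e - a| < ε} := fun ε =>
    (isOpen_lt (H.contA.sub continuous_const).abs continuous_const).measurableSet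
  obtain ⟨δ, hδ, h1⟩ : ∃ δ : ℝ, 0 < δ ∧ lam {e | 2 * δ ≤ B e} ≠ 0 := by
    by_contra hn
    push Not at hn
    have h2 : ∀ᵐ e ∂lam, ∀ n : ℕ, ¬ 2 * (1 / ((n : ℝ) + 1)) ≤ B e :=
      ae_all_iff.2 fun n => by
        rw [ae_iff]
        simpa only [not_not] using hn _ Nat.one_div_pos_of_nat
    obtain ⟨e, e1, e2⟩ := (pos.and h2).exists
    obtain ⟨n, hn'⟩ := exists_nat_one_div_lt (half_pos e1)
    exact e2 n (by linarith)
  obtain ⟨ε0, e0, e1, e2⟩ : ∃ ε0 : ℝ, 0 < ε0 ∧ ε0 < κ * δ / 2 ∧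
      P ({ω | |A (Z 0 ω) - a| < ε0} ∩ Z 0 ⁻¹' {e | δ < B e}) ≠ 0 := by
    by_contra hn
    push Not at hn
    refine h1 (le_zero_iff.1 (port h0 lim (isClosed_le continuous_const H.contB)
      (isOpen_lt continuous_const H.contB) (W := {e | δ < B e})
      (fun e (he : 2 * δ ≤ B e) => show δ < B e by linarith) ?_))
    have := H.κ_pos
    filter_upwards [hs.eventually (Ioo_mem_nhdsGT (show (0 : ℝ) < κ * δ / 2 by positivity))]
      with n hε
    rw [cond_apply' (h0 (isOpen_lt continuous_const H.contB).measurableSet), hn _ hε.1 hε.2,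
      mul_zero]
  obtain ⟨G, hG⟩ : ∃ G, G = {ω | |A (Z 0 ω) - a| < ε0} ∩ Z 0 ⁻¹' {e | δ < B e} := ⟨_, rfl⟩
  have mG : MeasurableSet G :=
    hG ▸ (h0 (mS ε0)).inter (h0 (isOpen_lt continuous_const H.contB).measurableSet)
  rw [← hG] at e2
  obtain ⟨M, hM⟩ : ∃ M, M = K * (|a| + ε0) + 1 := ⟨_, rfl⟩
  have hK := H.K_pos
  have hκ := H.κ_pos
  have M0 : 0 < M := by rw [hM]; positivity
  have c0 : ∫⁻ ω in G, r ω ∂P ≠ 0 := fun h => by
    rw [lintegral_eq_zero_iff H.mr] at h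
    have h3 : ∀ᵐ ω ∂P.restrict G, False := by
      filter_upwards [h, ae_restrict_of_ae H.r_pos] with ω h4 h5 using h5 h4
    rw [ae_iff] at h3
    simp only [not_false_eq_true, ofPred_true, Measure.restrict_apply_univ] at h3
    exact e2 h3
  refine ⟨(∫⁻ ω in G, r ω ∂P) * ENNReal.ofReal (1 / M) / 2, ?_, ?_⟩
  · exact ENNReal.div_ne_zero.2 ⟨mul_ne_zero c0 (by simpa using M0), by simp⟩
  filter_upwards [Ioo_mem_nhdsGT (half_pos M0)] with ε hε
  have key : ∀ᵐ ω ∂P, G.indicator (fun ω => ENNReal.ofReal (ε / M) * r ω) ω ≤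
      tm Z {e | |A e - a| < ε} ω * r ω := by
    filter_upwards [H.mono] with ω hω
    by_cases hw : ω ∈ G
    swap
    · simp [hw]
    rw [indicator_of_mem hw]
    refine mul_le_mul_left ?_ _
    rw [hG] at hw
    have w1 : |A (Z 0 ω) - a| < ε0 := hw.1
    have w2 : δ < B (Z 0 ω) := hw.2
    have w3 := abs_lt.1 w1
    have w4 : κ * δ < κ * B (Z 0 ω) := mul_lt_mul_of_pos_left w2 hκ
    have w5 := (hω (-(1 / 2)) 0 (by norm_num) (by norm_num) (by norm_num)).1
    have w6 := (hω 0 (1 / 2) (by norm_num) (by norm_num) (by norm_num)).1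
    obtain ⟨t0, t1, t2⟩ := intermediate_value_Icc (show (-(1 / 2) : ℝ) ≤ 1 / 2 by norm_num)
      (H.contA.comp (hc ω)).continuousOn
      (show a ∈ Icc (A (Z (-(1 / 2)) ω)) (A (Z (1 / 2) ω)) from ⟨by linarith, by linarith⟩)
    have t3 : A (Z t0 ω) = a := t2
    have w7 : ε / M < 1 / 2 := by rw [div_lt_iff₀ M0]; linarith [hε.2]
    have w8 : K * |A (Z 0 ω)| ≤ M - 1 := by
      rw [hM, add_sub_cancel_right]
      refine mul_le_mul_of_nonneg_left ?_ hK.le
      have := abs_add_le a (A (Z 0 ω) - a)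
      rw [add_sub_cancel] at this
      linarith
    have w9 : 0 < ε / M := div_pos hε.1 M0
    rw [tm_eq]
    refine le_trans (le_of_eq ?_) (measure_mono (s := Icc t0 (t0 + ε / M)) fun t ht => ?_)
    · rw [Real.volume_Icc, add_sub_cancel_left]
    have b1 := hω t0 t (by linarith [t1.1]) ht.1 (by linarith [t1.2, ht.2])
    refine ⟨?_, by linarith [t1.1, ht.1], by linarith [t1.2, ht.2]⟩
    have b2 : 0 ≤ κ * B (Z 0 ω) * (t - t0) :=
      mul_nonneg (mul_nonneg hκ.le (by linarith)) (by linarith [ht.1])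
    have b3 : K * |A (Z 0 ω)| * (t - t0) ≤ (M - 1) * (ε / M) :=
      mul_le_mul w8 (by linarith [ht.2]) (by linarith [ht.1]) (le_trans (by positivity) w8)
    have b4 : M * (ε / M) = ε := by field_simp
    show |A (Z t ω) - a| < ε
    rw [← t3, abs_of_nonneg (b2.trans b1.1)]
    nlinarith [b1.2]
  have k1 := (lintegral_mono_ae key).trans (lo_tm H hZ (mS ε))
  rw [lintegral_indicator mG, lintegral_const_mul _ H.mr] at k1
  rw [← ENNReal.mul_le_mul_iff_left (show (2 : ℝ≥0∞) ≠ 0 by simp) (by simp)]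
  refine le_trans (le_of_eq ?_) k1
  rw [mul_right_comm, ENNReal.div_mul_cancel (by simp) (by simp), mul_assoc,
    ← ENNReal.ofReal_mul (by positivity), mul_comm, one_div_mul_eq_div]

/-- the open set of values near the level `a` -/
def nr (A B : E → ℝ) (a δ : ℝ) (U : Set E) (ε : ℝ) : Set E :=
  {e | |A e - a| < ε} ∩ (U ∩ {e | δ < B e})

omit [PolishSpace E] in
theorem upper (H : Line P Z A B κ K r R) (hZ : Measurable (Function.uncurry Z)) {δ ε : ℝ}
    (hδ : 0 < δ) {U : Set E} (hU : IsOpen U) :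
    P (Z 0 ⁻¹' nr A B a δ U ε) ≤ ENNReal.ofReal (4 * K / (κ * δ)) * ENNReal.ofReal ε *
      P.withDensity R {ω | tm Z (nr A B a δ U ε) ω ≠ 0} := by
  have mW : MeasurableSet (nr A B a δ U ε) :=
    ((isOpen_lt (H.contA.sub continuous_const).abs continuous_const).inter
      (hU.inter (isOpen_lt continuous_const H.contB))).measurableSet
  have mT : MeasurableSet {ω | tm Z (nr A B a δ U ε) ω ≠ 0} :=
    (meas_tm hZ mW (measurableSet_singleton 0)).compl
  have hK := H.K_pos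
  have hκ := H.κ_pos
  refine (le_mul_of_one_le_right' (show (1 : ℝ≥0∞) ≤ 2 by norm_num)).trans
    ((up_tm H hZ mW).trans ?_)
  rw [withDensity_apply _ mT, ← lintegral_const_mul _ H.mR, ← lintegral_indicator mT]
  refine lintegral_mono_ae ?_
  filter_upwards [H.mono, H.bd] with ω h1 h2
  by_cases hw : tm Z (nr A B a δ U ε) ω = 0
  · simp [hw]
  rw [indicator_of_mem (show ω ∈ {ω | tm Z (nr A B a δ U ε) ω ≠ 0} from hw)]
  refine mul_le_mul_left ?_ _
  rw [tm_eq] at hw ⊢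
  obtain ⟨t1, ⟨w1, -, w2⟩, w3⟩ := nonempty_of_measure_ne_zero hw
  have w4 : δ < K * B (Z 0 ω) := lt_of_lt_of_le w2 (h2 t1 w3)
  have w5 := abs_lt.1 (show |A (Z t1 ω) - a| < ε from w1)
  have key : ∀ s t : ℝ, -1 ≤ s → s ≤ t → t ≤ 1 → A (Z t ω) - A (Z s ω) ≤ 2 * ε →
      t - s ≤ 2 * K / (κ * δ) * ε := fun s t a1 a2 a3 a4 => by
    have a5 := (h1 s t a1 a2 a3).1.trans a4
    rw [div_mul_eq_mul_div, le_div_iff₀ (by positivity)]
    have a6 : κ * δ * (t - s) ≤ κ * (K * B (Z 0 ω)) * (t - s) := by gcongr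
    nlinarith [mul_le_mul_of_nonneg_left a5 hK.le]
  have k0 : 0 ≤ 2 * K / (κ * δ) * ε := mul_nonneg (by positivity) (by linarith)
  refine (measure_mono (t := Icc (t1 - 2 * K / (κ * δ) * ε) (t1 + 2 * K / (κ * δ) * ε))
    fun t ht => ?_).trans (le_of_eq ?_)
  · have w6 := abs_lt.1 (show |A (Z t ω) - a| < ε from ht.1.1)
    rcases le_total t t1 with h | h
    · exact ⟨by linarith [key t t1 ht.2.1 h w3.2 (by linarith)], by linarith⟩
    · exact ⟨by linarith, by linarith [key t1 t w3.1 h ht.2.2 (by linarith)]⟩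
  · rw [Real.volume_Icc, ← ENNReal.ofReal_mul (by positivity)]
    congr 1
    ring

/-- the time at which `A` crosses the level `a` -/
noncomputable def tau (Z : ℝ → Ω → E) (A : E → ℝ) (a : ℝ) (ω : Ω) : ℝ :=
  -1 + (tm Z {e | A e < a} ω).toReal

omit [PolishSpace E] [BorelSpace E] [IsProbabilityMeasure P] in
theorem inter_sub (H : Line P Z A B κ K r R) (hc : ∀ ω, Continuous fun t => Z t ω) {δ : ℝ}
    (hδ : 0 < δ) (U : Set E) : ∀ᵐ ω ∂P,
    (∀ n : ℕ, tm Z (nr A B a δ U (1 / ((n : ℝ) + 1))) ω ≠ 0) → Z (tau Z A a ω) ω ∈ closure U := by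
  filter_upwards [H.mono, H.bd] with ω h1 h2 h3
  have hK := H.K_pos
  have hκ := H.κ_pos
  have h4 : ∀ n : ℕ, ∃ t ∈ Icc (-1 : ℝ) 1, Z t ω ∈ nr A B a δ U (1 / ((n : ℝ) + 1)) := fun n => by
    have := h3 n
    rw [tm_eq] at this
    obtain ⟨t, a1, a2⟩ := nonempty_of_measure_ne_zero this
    exact ⟨t, a2, a1⟩
  choose t t1 t2 using h4
  have hB : 0 < B (Z 0 ω) :=
    (mul_pos_iff_of_pos_left hK).1 (hδ.trans (lt_of_lt_of_le (t2 0).2.2 (h2 _ (t1 0))))
  obtain ⟨t0, a1, φ, a2, a3⟩ := isCompact_Icc.tendsto_subseq t1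
  have a4 : Tendsto (fun n => Z (t (φ n)) ω) atTop (𝓝 (Z t0 ω)) := ((hc ω).tendsto t0).comp a3
  have a5 : Z t0 ω ∈ closure U :=
    mem_closure_of_tendsto a4 (Eventually.of_forall fun n => (t2 (φ n)).2.1)
  have a6 : A (Z t0 ω) = a := by
    have b1 := (((H.contA.sub continuous_const).abs (f := fun e => A e - a)).tendsto _).comp a4
    have b2 := (tendsto_one_div_add_atTop_nhds_zero_nat (𝕜 := ℝ)).comp a2.tendsto_atTop
    have b3 := le_of_tendsto_of_tendsto' b1 b2 fun n => le_of_lt (t2 (φ n)).1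
    exact sub_eq_zero.1 (abs_nonpos_iff.1 b3)
  have a7 : {s | Z s ω ∈ {e | A e < a}} ∩ Icc (-1 : ℝ) 1 = Ico (-1) t0 := by
    ext s
    simp only [mem_inter_iff, mem_ofPred_eq, mem_Icc, mem_Ico]
    constructor
    · rintro ⟨b1, b2, b3⟩
      refine ⟨b2, lt_of_not_ge fun b4 => ?_⟩
      have := (h1 t0 s a1.1 b4 b3).1
      have : 0 ≤ κ * B (Z 0 ω) * (s - t0) := mul_nonneg (by positivity) (by linarith)
      linarith
    · rintro ⟨b1, b2⟩
      refine ⟨?_, b1, b2.le.trans a1.2⟩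
      have := (h1 s t0 b1 b2.le a1.2).1
      have : 0 < κ * B (Z 0 ω) * (t0 - s) := mul_pos (by positivity) (by linarith)
      linarith
  have a8 : tau Z A a ω = t0 := by
    rw [tau, tm_eq, a7, Real.volume_Ico, ENNReal.toReal_ofReal (by linarith [a1.1])]
    ring
  rwa [a8]

end CondAux

open CondAux

/-- the limit of the conditioned laws is dominated by the law of `Z` at a random time -/
theorem Line.ac (H : Line P Z A B κ K r R) (hm : ∀ t, Measurable (Z t))
    (hc : ∀ ω, Continuous fun t => Z t ω)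
    {s : ℕ → ℝ} (hs : Tendsto s atTop (𝓝[>] 0))
    (lim : ∀ F : BoundedContinuousFunction E ℝ, Tendsto (fun n : ℕ =>
      ∫ ω, F (Z 0 ω) ∂cond P {ω | |A (Z 0 ω) - a| < s n}) atTop (𝓝 (∫ e, F e ∂lam)))
    (pos : ∀ᵐ e ∂lam, 0 < B e) :
    ∃ τ : Ω → ℝ, Measurable τ ∧ (∀ ω, τ ω ∈ Icc (-1 : ℝ) 1) ∧
      lam ≪ P.map fun ω => Z (τ ω) ω := by
  have hZ : Measurable (Function.uncurry Z) :=
    measurable_uncurry_of_continuous_of_measurable hc hm
  have mτ : Measurable (tau Z A a) :=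
    ((meas_tm hZ (isOpen_lt H.contA continuous_const).measurableSet).ennreal_toReal).const_add _
  have mX : Measurable fun ω => Z (tau Z A a ω) ω := hZ.comp (mτ.prodMk measurable_id)
  refine ⟨tau Z A a, mτ, fun ω => ⟨?_, ?_⟩, ?_⟩
  · exact le_add_of_nonneg_right ENNReal.toReal_nonneg
  · have : (tm Z {e | A e < a} ω).toReal ≤ 2 := by
      refine ENNReal.toReal_le_of_le_ofReal (by norm_num) ?_
      rw [tm_eq]
      refine (measure_mono inter_subset_right).trans (le_of_eq ?_)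
      rw [Real.volume_Icc]
      norm_num
    unfold tau
    linarith
  have : IsFiniteMeasure (P.withDensity R) := isFiniteMeasure_withDensity H.R_fin
  obtain ⟨c, c0, hc'⟩ := lower H hZ hc hs lim pos
  obtain ⟨Λ, hΛ⟩ : ∃ Λ, Λ = (P.withDensity R).map fun ω => Z (tau Z A a ω) ω := ⟨_, rfl⟩
  have : IsFiniteMeasure Λ := hΛ ▸ inferInstance
  have main : ∀ δ : ℝ, 0 < δ → ∀ F : Set E, IsClosed F → F ⊆ {e | δ < B e} → Λ F = 0 →
      lam F = 0 := by
    intro δ hδ F hF hFB h0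
    obtain ⟨C, hC⟩ : ∃ C, C = c⁻¹ * ENNReal.ofReal (4 * K / (κ * δ)) := ⟨_, rfl⟩
    have C0 : C ≠ ∞ := hC ▸ ENNReal.mul_ne_top (ENNReal.inv_ne_top.2 c0) ENNReal.ofReal_ne_top
    have step : ∀ η : ℝ≥0∞, 0 < η → lam F ≤ C * η := by
      intro η hη
      obtain ⟨V, v1, v2, v3⟩ := F.exists_isOpen_lt_of_lt (μ := Λ) η (h0 ▸ hη)
      obtain ⟨U, u1, u2, u3⟩ := normal_exists_closure_subset hF v2 v1
      have mW : ∀ ε, MeasurableSet (nr A B a δ U ε) := fun ε =>
        ((isOpen_lt (H.contA.sub continuous_const).abs continuous_const).inter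
          (u1.inter (isOpen_lt continuous_const H.contB))).measurableSet
      have mono : ∀ ε ε' : ℝ, ε ≤ ε' →
          {ω | tm Z (nr A B a δ U ε) ω ≠ 0} ⊆ {ω | tm Z (nr A B a δ U ε') ω ≠ 0} :=
        fun ε ε' h ω h1 h2 => h1 (measure_mono_null (t := {t | Z t ω ∈ nr A B a δ U ε'})
          (fun t ht => ⟨lt_of_lt_of_le ht.1 h, ht.2⟩) h2)
      have l1 := tendsto_measure_iInter_atTop (μ := P.withDensity R)
        (s := fun n : ℕ => {ω | tm Z (nr A B a δ U (1 / ((n : ℝ) + 1))) ω ≠ 0})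
        (fun n => (meas_tm hZ (mW _) (measurableSet_singleton 0)).compl.nullMeasurableSet)
        (fun n m h => mono _ _ (Nat.one_div_le_one_div h)) ⟨0, measure_ne_top _ _⟩
      have l2 : P.withDensity R
          (⋂ n : ℕ, {ω | tm Z (nr A B a δ U (1 / ((n : ℝ) + 1))) ω ≠ 0}) < η := by
        refine lt_of_le_of_lt ?_ v3
        rw [hΛ, Measure.map_apply mX v2.measurableSet]
        refine measure_mono_ae ?_
        filter_upwards [(withDensity_absolutelyContinuous P R).ae_le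
          (inter_sub (a := a) H hc hδ U)] with ω h1 h2
        exact u3 (h1 (mem_iInter.1 h2))
      obtain ⟨n, hn⟩ := (l1.eventually (gt_mem_nhds l2)).exists
      refine port (hm 0) lim hF (u1.inter (isOpen_lt continuous_const H.contB))
        (subset_inter u2 hFB) ?_
      filter_upwards [hs.eventually hc',
        hs.eventually (Ioo_mem_nhdsGT (Nat.one_div_pos_of_nat (n := n) (α := ℝ)))] with j e1 e2
      generalize s j = ε at e1 e2 ⊢
      have e3 := (upper (a := a) (ε := ε) H hZ hδ u1).trans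
        (mul_le_mul_right ((measure_mono (mono _ _ e2.2.le)).trans hn.le) _)
      have e4 : ENNReal.ofReal ε ≠ 0 := by simpa using e2.1
      rw [cond_apply' (hm 0 (u1.inter (isOpen_lt continuous_const H.contB)).measurableSet)]
      refine (mul_le_mul' (ENNReal.inv_le_inv.2 e1) e3).trans (le_of_eq ?_)
      rw [hC, ENNReal.mul_inv (Or.inl c0) (Or.inr e4)]
      calc _ = c⁻¹ * ENNReal.ofReal (4 * K / (κ * δ)) * η *
            ((ENNReal.ofReal ε)⁻¹ * ENNReal.ofReal ε) := by ring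
        _ = _ := by rw [ENNReal.inv_mul_cancel e4 ENNReal.ofReal_ne_top, mul_one]
    have l3 : Tendsto (fun η : ℝ≥0∞ => C * η) (𝓝[>] 0) (𝓝 0) := by
      simpa using (ENNReal.Tendsto.const_mul (a := C) (tendsto_id (x := 𝓝 (0 : ℝ≥0∞)))
        (Or.inr C0)).mono_left nhdsWithin_le_nhds
    exact le_zero_iff.1 (ge_of_tendsto l3 (eventually_nhdsWithin_of_forall step))
  refine Measure.AbsolutelyContinuous.mk fun N hN h0 => ?_
  have h1 : Λ N = 0 := by
    rw [hΛ]
    exact (withDensity_absolutelyContinuous P R).map mX h0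
  have h2 : ∀ n : ℕ, lam (N ∩ {e | 1 / ((n : ℝ) + 1) < B e}) = 0 := fun n => by
    rw [(hN.inter (isOpen_lt continuous_const H.contB).measurableSet).measure_eq_iSup_isClosed_of_ne_top
      (measure_ne_top _ _)]
    simp only [ENNReal.iSup_eq_zero]
    exact fun F f1 f2 => main _ Nat.one_div_pos_of_nat F f2 (f1.trans inter_subset_right)
      (measure_mono_null (f1.trans inter_subset_left) h1)
  refine le_zero_iff.1 (le_of_le_of_eq (measure_mono_ae ?_) (measure_iUnion_null h2))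
  filter_upwards [pos] with e he hN'
  obtain ⟨n, hn⟩ := exists_nat_one_div_lt he
  exact mem_iUnion.2 ⟨n, hN', hn⟩

end Pool.Agent.Lib.MP_0d9445_pr.Fx
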