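import Pool.Agent.Lib.MP_0d9445_pr.Fx.Cond
import Pool.Agent.Lib.MP_0d9445_pr.Bd.Stmt
import Pool.Agent.Lib.MP_0d9445_pr.Su.Basic

/-! Versions and couplings. -/

open MeasureTheory ProbabilityTheory Set Filter Topology
open scoped NNReal ENNReal

namespace Pool.Agent.Lib.MP_0d9445_pr.Fx

section Version

variable {Ω E : Type*} [MeasurableSpace Ω] [TopologicalSpace E] [PolishSpace E]
  [MeasurableSpace E] [BorelSpace E] [Nonempty E] {P : Measure Ω} {Z : ℝ → Ω → E}

theorem exists_version (hm : ∀ t, AEMeasurable (Z t) P)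
    (hc : ∀ᵐ ω ∂P, Continuous fun t => Z t ω) :
    ∃ Z' : ℝ → Ω → E, (∀ t, Measurable (Z' t)) ∧ (∀ ω, Continuous fun t => Z' t ω) ∧
      ∀ᵐ ω ∂P, ∀ t, Z' t ω = Z t ω := by
  classical
  have h1 : ∀ᵐ ω ∂P, (Continuous fun t => Z t ω) ∧ ∀ q : ℚ, Z q ω = (hm q).mk (Z q) ω :=
    hc.and (ae_all_iff.2 fun q => (hm q).ae_eq_mk)
  obtain ⟨N, hN, mN, zN⟩ := exists_measurable_superset_of_null (ae_iff.1 h1)
  have good : ∀ ω, ω ∉ N → (Continuous fun t => Z t ω) ∧ ∀ q : ℚ, Z q ω = (hm q).mk (Z q) ω :=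
    fun ω hω => by_contra fun a => hω (hN a)
  let e : E := Classical.arbitrary E
  have hcont : ∀ ω, Continuous fun t => if ω ∈ N then e else Z t ω := fun ω => by
    split_ifs with a
    · exact continuous_const
    · exact (good ω a).1
  refine ⟨fun t ω => if ω ∈ N then e else Z t ω, fun t => ?_, hcont, ?_⟩
  · obtain ⟨x, hx, hxt⟩ := mem_closure_iff_seq_limit.1 (Rat.denseRange_cast (𝕜 := ℝ) t)
    choose q hq using hx
    refine measurable_of_tendsto_metrizable
      (f := fun n ω => if ω ∈ N then e else (hm (q n)).mk (Z (q n)) ω)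
      (fun n => Measurable.ite mN measurable_const (hm (q n)).measurable_mk)
      (tendsto_pi_nhds.2 fun ω => ?_)
    refine (((hcont ω).tendsto t).comp hxt).congr fun n => ?_
    simp only [Function.comp_apply]
    split_ifs with a
    · rfl
    · rw [← hq n, (good ω a).2]
  · filter_upwards [measure_eq_zero_iff_ae_notMem.1 zN] with ω a t
    exact if_neg a

/-- `Line.ac` without a choice of versions -/
theorem Line.ac' [IsProbabilityMeasure P] {lam : Measure E} [IsProbabilityMeasure lam]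
    {A B : E → ℝ} {a κ K : ℝ} {r R : Ω → ℝ≥0∞} (H : Line P Z A B κ K r R)
    (hm : ∀ t, AEMeasurable (Z t) P) (hc : ∀ᵐ ω ∂P, Continuous fun t => Z t ω)
    {S : ℝ → Set Ω} (hS : ∀ ε, S ε =ᵐ[P] {ω | |A (Z 0 ω) - a| < ε})
    {s : ℕ → ℝ} (hs : Tendsto s atTop (𝓝[>] 0))
    (lim : ∀ F : BoundedContinuousFunction E ℝ, Tendsto (fun n : ℕ =>
      ∫ ω, F (Z 0 ω) ∂cond P (S (s n))) atTop (𝓝 (∫ e, F e ∂lam)))
    (pos : ∀ᵐ e ∂lam, 0 < B e) :
    ∃ (τ : Ω → ℝ) (Z' : Ω → E), Measurable τ ∧ (∀ ω, τ ω ∈ Icc (-1 : ℝ) 1) ∧ Measurable Z' ∧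
      (∀ᵐ ω ∂P, Z' ω = Z (τ ω) ω) ∧ lam ≪ P.map Z' := by
  obtain ⟨Y, hY, cY, eY⟩ := exists_version hm hc
  have H' : Line P Y A B κ K r R :=
    ⟨H.contA, H.contB, H.κ_pos, H.K_pos,
      by filter_upwards [H.mono, eY] with ω a b; simpa only [b] using a,
      by filter_upwards [H.bd, eY] with ω a b; simpa only [b] using a,
      H.mr, H.mR, H.r_pos, H.R_fin,
      fun t ht F hF => ((lintegral_congr_ae (eY.mono fun ω b => by simp only [b])).trans_le
        (H.up t ht F hF)).trans_eq (lintegral_congr_ae (eY.mono fun ω b => by simp only [b])),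
      fun t ht F hF => ((lintegral_congr_ae (eY.mono fun ω b => by simp only [b])).trans_le
        (H.lo t ht F hF)).trans_eq (lintegral_congr_ae (eY.mono fun ω b => by simp only [b]))⟩
  obtain ⟨τ, mτ, iτ, ac⟩ := H'.ac (a := a) (lam := lam) hY cY hs (fun F => by
    refine (lim F).congr fun n => ?_
    generalize s n = ε
    have e : S ε =ᵐ[P] {ω | |A (Y 0 ω) - a| < ε} :=
      (hS ε).trans (eY.mono fun ω b => by
        show (|A (Z 0 ω) - a| < ε) = (|A (Y 0 ω) - a| < ε)
        rw [b])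
    have e2 : cond P (S ε) = cond P {ω | |A (Y 0 ω) - a| < ε} := by
      rw [ProbabilityTheory.cond, ProbabilityTheory.cond, measure_congr e,
        Measure.restrict_congr_set e]
    rw [e2]
    exact integral_congr_ae (cond_absolutelyContinuous.ae_le
      (eY.mono fun ω b => by simp only [b]))) pos
  exact ⟨τ, fun ω => Y (τ ω) ω, mτ, iτ,
    (measurable_uncurry_of_continuous_of_measurable cY hY).comp (mτ.prodMk measurable_id),
    eY.mono fun ω b => b _, ac⟩

end Version

section Couple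

variable {Ω Ω' E : Type*} [MeasurableSpace Ω] [MeasurableSpace Ω'] [MeasurableSpace E]

theorem exists_couple [StandardBorelSpace Ω'] [StandardBorelSpace E] (P : Measure Ω)
    [IsProbabilityMeasure P] (P' : Measure Ω') [IsProbabilityMeasure P'] {Z : Ω → E} {Z' : Ω' → E}
    (hZ : Measurable Z) (hZ' : Measurable Z') (ac : P.map Z ≪ P'.map Z') :
    ∃ κ : Kernel Ω Ω', IsMarkovKernel κ ∧ (P ⊗ₘ κ).map Prod.snd ≪ P' ∧
      ∀ᵐ x ∂P ⊗ₘ κ, Z x.1 = Z' x.2 := by
  have : Nonempty Ω' := nonempty_of_isProbabilityMeasure P'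
  have key : (P'.map Z') ⊗ₘ condDistrib id Z' P' = P'.map fun a => (Z' a, a) :=
    compProd_map_condDistrib aemeasurable_id
  have main : ∀ p : E × Ω' → Prop, MeasurableSet {x | p x} → (∀ᵐ a ∂P', p (Z' a, a)) →
      ∀ᵐ x ∂P ⊗ₘ (condDistrib id Z' P').comap Z hZ, p (Z x.1, x.2) := fun p hp h => by
    have h1 : ∀ᵐ x ∂(P'.map Z') ⊗ₘ condDistrib id Z' P', p x := by
      rw [key]
      exact (ae_map_iff (hZ'.prodMk measurable_id).aemeasurable hp).2 h
    exact Measure.ae_compProd_of_ae_ae (((hZ.comp measurable_fst).prodMk measurable_snd) hp)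
      (ae_of_ae_map hZ.aemeasurable (ac.ae_le (Measure.ae_ae_of_ae_compProd h1)))
  refine ⟨(condDistrib id Z' P').comap Z hZ, inferInstance,
    Measure.AbsolutelyContinuous.mk fun N hN h0 => ?_, main (fun x => x.1 = Z' x.2)
      (measurableSet_eq_fun measurable_fst (hZ'.comp measurable_snd)) (ae_of_all _ fun _ => rfl)⟩
  rw [Measure.map_apply measurable_snd hN]
  exact measure_eq_zero_iff_ae_notMem.2 (main (fun x => x.2 ∉ N) (measurable_snd hN.compl)
    (measure_eq_zero_iff_ae_notMem.1 h0))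

theorem exists_ref (Q : Measure (Ω × Ω')) [IsProbabilityMeasure Q] (P₀ : Measure Ω')
    [IsProbabilityMeasure P₀] (ac : Q.map Prod.snd ≪ P₀) :
    ∃ Q₀ : Measure (Ω × Ω'), Q ≪ Q₀ ∧ MeasurePreserving Prod.snd Q₀ P₀ := by
  obtain ⟨⟨ω₀, -⟩⟩ : Nonempty (Ω × Ω') := nonempty_of_isProbabilityMeasure Q
  obtain ⟨ρ, mρ, fin, eρ⟩ : ∃ ρ : Ω' → ℝ≥0∞, Measurable ρ ∧ (∀ᵐ y ∂P₀, ρ y < ∞) ∧
      Q.map Prod.snd = P₀.withDensity ρ := ⟨_, Measure.measurable_rnDeriv _ _,
    Measure.rnDeriv_lt_top _ _, (Measure.withDensity_rnDeriv_eq _ _ ac).symm⟩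
  have m0 : MeasurableSet {y | ρ y = 0} := mρ (measurableSet_singleton 0)
  refine ⟨Q.withDensity (fun x => (ρ x.2)⁻¹) + (P₀.restrict {y | ρ y = 0}).map (Prod.mk ω₀),
    ?_, measurable_snd, ?_⟩
  · refine Measure.AbsolutelyContinuous.add_right ?_ _
    refine withDensity_absolutelyContinuous' (mρ.comp measurable_snd).inv.aemeasurable ?_
    filter_upwards [ae_of_ae_map measurable_snd.aemeasurable (ac.ae_le fin)] with x hx
    exact ENNReal.inv_ne_zero.2 hx.ne
  · ext s hs
    rw [Measure.map_apply measurable_snd hs, Measure.add_apply,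
      withDensity_apply _ (measurable_snd hs), Measure.map_apply measurable_prodMk_left
        (measurable_snd hs), ← setLIntegral_map (f := fun y => (ρ y)⁻¹) hs mρ.inv measurable_snd,
      eρ, setLIntegral_withDensity_eq_setLIntegral_mul (g := fun y => (ρ y)⁻¹) _ mρ mρ.inv hs,
      ← measure_inter_add_sdiff s m0, add_comm]
    congr 1
    · exact Measure.restrict_apply hs
    · rw [lintegral_congr_ae (g := {y | ρ y = 0}ᶜ.indicator 1), lintegral_indicator_one m0.compl,
        Measure.restrict_apply m0.compl, inter_comm, sdiff_eq]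
      filter_upwards [ae_restrict_of_ae fin] with y hy
      by_cases a : ρ y = 0
      · rw [indicator_of_notMem (by simpa using a), Pi.mul_apply]
        exact (congrArg (· * _) a).trans (zero_mul _)
      · rw [indicator_of_mem (by simpa using a)]
        exact ENNReal.mul_inv_cancel a hy.ne

end Couple

variable {Ω Ω' : Type} [MeasurableSpace Ω] [MeasurableSpace Ω'] {P : Measure Ω} {Q : Measure Ω'}
  {π : Ω' → Ω}

theorem freePair_comp {h φ : Ω → Field} {g : Ω → ℂ → ℝ} (H : IsFreePair P h φ g)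
    (hπ : MeasurePreserving π Q P) :
    IsFreePair Q (fun x => h (π x)) (fun x => φ (π x)) fun x => g (π x) := by
  have hm : ∀ p, Measurable fun ω => φ ω p := fun p => (Mu.measurable_eval p).comp H.free.meas
  refine ⟨Su.isGFF_comp H.gff hπ, hπ.quasiMeasurePreserving.ae H.zero,
    ⟨H.free.meas.comp hπ.measurable, ⟨fun I => ⟨?_⟩⟩, fun p => ?_, fun p q => ?_⟩,
    fun z => (H.meas z).comp hπ.measurable, fun x => H.cont _, hπ.quasiMeasurePreserving.ae H.eq⟩
  · have h1 := (H.free.gauss.hasGaussianLaw I).isGaussian_map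
    have h2 : Measurable fun ω => I.restrict fun p => φ ω p :=
      measurable_pi_lambda _ fun i => hm i
    rw [← hπ.map_eq, Measure.map_map h2 hπ.measurable] at h1
    exact h1
  · rw [← H.free.mean p, ← hπ.map_eq, integral_map hπ.aemeasurable (hm p).aestronglyMeasurable]
  · rw [← H.free.cov p q, ← hπ.map_eq]
    exact (integral_map hπ.aemeasurable ((hm p).mul (hm q)).aestronglyMeasurable).symm

theorem ppp_comp {d : Ω → Met} {m : Ω → Measure ℂ} {l : ℝ≥0} {Y : Ω → Set ℂ}
    (hY : IsPPP P d m l Y) (hd : Measurable d) (hm : Measurable m)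
    (hπ : MeasurePreserving π Q P) :
    IsPPP Q (fun x => d (π x)) (fun x => m (π x)) l fun x => Y (π x) := by
  intro k A n S hA hb hdis hS
  obtain ⟨h1, h2⟩ := hY k A n S hA hb hdis hS
  have h3 : MeasurableSet {ω | (d ω, m ω) ∈ S} := (hd.prodMk hm) hS
  refine ⟨hπ.measurable h1, ?_⟩
  refine (hπ.measure_preimage (h3.inter h1).nullMeasurableSet).trans (h2.trans ?_)
  refine (hπ.setLIntegral_comp_preimage h3 (Finset.measurable_prod _ fun i _ => ?_)).symm
  have := ((Measure.measurable_coe (hA i)).comp hm).ennreal_toNNReal.const_mul l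
  simp only [poissonMeasure_singleton]
  exact (by fun_prop : Measurable fun r : ℝ≥0 =>
    ENNReal.ofReal (Real.exp (-r) * r ^ n i / (n i).factorial)).comp this

end Pool.Agent.Lib.MP_0d9445_pr.Fx
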