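import Pool.Agent.Lib.MP_0d9445_pr.Fx.Stmt
import Pool.Agent.Lib.MP_0d9445_pr.Bd.Defs

/-! The disk of given area: definitions. -/

open MeasureTheory ProbabilityTheory Set Filter Topology Real LQ.Met
open scoped NNReal ENNReal

noncomputable section

namespace Pool.Agent.Lib.MP_0d9445_pr.Fx

/-- a bump at `z₀` and its mirror image, a Cameron-Martin direction of the free field -/
structure Dir (z₀ : ℂ) (ψ : Fn) : Prop where
  nonneg : ∀ z, 0 ≤ ψ z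
  le : ∀ z, ψ z ≤ 2
  pos : ∀ z ∈ Metric.ball z₀ (1 / 16), 1 / 2 ≤ ψ z
  zero : ∀ z : ℂ, 0 ≤ z.im → z ∉ Metric.ball z₀ (1 / 8) → ψ z = 0
  real : ∀ z : ℂ, |z.im| ≤ 1 / 4 → ψ z = 0
  cm : ∀ (Ω : Type) [MeasurableSpace Ω] (P : Measure Ω) (φ : Ω → Field), IsFreeGFF φ P →
    ∃ (G : Ω → ℝ) (σ : ℝ), Measurable G ∧ ∀ (t : ℝ) (F : Field → ℝ≥0∞), Measurable F →
      ∫⁻ ω, F (φ ω) ∂P =
        ∫⁻ ω, F (addFn (φ ω) (t • ψ)) * ENNReal.ofReal (exp (-(t * G ω) - t ^ 2 * σ)) ∂P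

variable {Ω : Type} [MeasurableSpace Ω]

/-- the disk of free area: a weighted free field plus `s` minus the constant `c` -/
structure Data (P P₀ : Measure Ω) (h φ : Ω → Field) (g f : Ω → ℂ → ℝ) (s : ℂ → ℝ)
    (c : Field → ℝ) (w : Field → ℝ≥0∞) : Prop where
  prob : IsProbabilityMeasure P
  pair : IsFreePair P₀ h φ g
  mw : Measurable w
  mc : Measurable c
  dens : P = P₀.withDensity fun ω => w (φ ω)
  cont : ContinuousOn s {0, 1}ᶜ
  eq : ∀ ω z, f ω z = g ω z + (s z - c (φ ω))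
  inv : ∀ z₀ ψ, Dir z₀ ψ → ∀ t : ℝ, ∀ᵐ ω ∂P₀,
    w (addFn (φ ω) (t • ψ)) = w (φ ω) ∧ c (addFn (φ ω) (t • ψ)) = c (φ ω)

variable (M : Model)

/-- the metric of `H + f` in the half-plane -/
def wm (H : Field) (f : ℂ → ℝ) (x y : ℂ) : ℝ≥0∞ :=
  wmetOn (fun z => M.ξ * f z) (Function.curry (M.D H)) UH x y

/-- the area measure of `H + f` in the half-plane -/
def am (H : Field) (f : ℂ → ℝ) : Measure ℂ :=
  ((M.μ H).restrict UH).withDensity fun z => ENNReal.ofReal (exp (M.γ * f z))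

/-- the coordinates of the surface of `H + f` -/
def cz (x : ℕ → ℂ × ℂ) (β : ℕ → BoundedContinuousFunction ℂ ℝ) (H : Field) (f : ℂ → ℝ) :
    (ℕ → ℝ) × (ℕ → ℝ) :=
  (fun i => (wm M H f (x i).1 (x i).2).toReal, fun i => ∫ z, β i z ∂(am M H f).map cayley)

end Pool.Agent.Lib.MP_0d9445_pr.Fx
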