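import Pool.Agent.Lib.MP_0d9445_pr.Fx.Defs
import Pool.Agent.Lib.MP_0d9445_pr.Met.Weyl
import Pool.Agent.Lib.MP_0d9445_pr.Bd.Chart

/-! The coordinates along a line of shifts, path by path. -/

open MeasureTheory ProbabilityTheory Set Filter Topology Real LQ.Met
open scoped NNReal ENNReal

noncomputable section

namespace Pool.Agent.Lib.MP_0d9445_pr.Fx

variable {M : Model} {H : Field} {f : ℂ → ℝ} {z₀ : ℂ} {ψ : Fn} {x : ℕ → ℂ × ℂ}
  {β : ℕ → BoundedContinuousFunction ℂ ℝ} {b : BoundedContinuousFunction ℂ ℝ}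

theorem measurable_coords (x : ℕ → ℂ × ℂ) (β : ℕ → BoundedContinuousFunction ℂ ℝ) :
    Measurable fun c : Cf => coords x β c.1 c.2 := by
  refine Measurable.prodMk (measurable_pi_lambda _ fun i => ?_) (measurable_pi_lambda _ fun i => ?_)
  · exact (continuous_eval_const (x i)).measurable.comp measurable_fst
  · exact (StronglyMeasurable.integral_kernel (κ := (⟨fun c : Cf => c.2, measurable_snd⟩ :
      Kernel Cf ℂ)) (β i).continuous.stronglyMeasurable).measurable

theorem am_shift (hf : ContinuousOn f UH) (u : Fn) : am M H (fun z => f z + u z) =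
    (am M H f).withDensity fun z => ENNReal.ofReal (exp (M.γ * u z)) := by
  have h1 : AEMeasurable (fun z => ENNReal.ofReal (exp (M.γ * f z))) ((M.μ H).restrict UH) :=
    (ENNReal.continuous_ofReal.comp_continuousOn
      (continuousOn_const.mul hf).rexp).aemeasurable Bd.isOpen_UH.measurableSet
  have h2 : Measurable fun z => ENNReal.ofReal (exp (M.γ * u z)) :=
    (ENNReal.continuous_ofReal.comp (continuous_const.mul u.continuous).rexp).measurable
  unfold am
  rw [← withDensity_mul₀ h1 h2.aemeasurable]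
  congr 1
  funext z
  rw [Pi.mul_apply, ← ENNReal.ofReal_mul (exp_pos _).le, ← exp_add, mul_add]

namespace DetAux

theorem am_line (hf : ContinuousOn f UH) (ψ : Fn) (t : ℝ) :
    am M H (fun z => f z + t * ψ z) =
      (am M H f).withDensity fun z => ENNReal.ofReal (exp (M.γ * (t * ψ z))) :=
  am_shift hf (t • ψ)

theorem abs_mul_le (hψ : Dir z₀ ψ) (t : ℝ) (z : ℂ) : |t * ψ z| ≤ 2 * |t| := by
  rw [abs_mul, abs_of_nonneg (hψ.nonneg z), mul_comm]
  exact mul_le_mul_of_nonneg_right (hψ.le z) (abs_nonneg t)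

theorem exp_le (hψ : Dir z₀ ψ) {t a : ℝ} (ht : |t| ≤ a) (z : ℂ) :
    exp (M.γ * (t * ψ z)) ≤ exp (2 * M.γ * a) := by
  refine exp_le_exp.2 ?_
  have h1 := (le_abs_self _).trans (abs_mul_le hψ t z)
  nlinarith [M.γ_pos]

theorem le_exp (hψ : Dir z₀ ψ) {t : ℝ} (ht : |t| ≤ 1) (z : ℂ) :
    exp (-(2 * M.γ)) ≤ exp (M.γ * (t * ψ z)) := by
  refine exp_le_exp.2 ?_
  have h1 := (neg_le_abs _).trans (abs_mul_le hψ t z)
  nlinarith [M.γ_pos]

theorem cz_zero (i : ℕ) : (cz M x β H f).2 i = ∫ z, β i (cayley z) ∂am M H f :=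
  integral_map Bd.chart_cayley.meas.aemeasurable (β i).continuous.aestronglyMeasurable

theorem cz_line (hf : ContinuousOn f UH) (ψ : Fn) (t : ℝ) (i : ℕ) :
    (cz M x β H fun z => f z + t * ψ z).2 i =
      ∫ z, exp (M.γ * (t * ψ z)) * β i (cayley z) ∂am M H f := by
  have h2 : Measurable fun z => ENNReal.ofReal (exp (M.γ * (t * ψ z))) :=
    (ENNReal.continuous_ofReal.comp
      (continuous_const.mul (continuous_const.mul ψ.continuous)).rexp).measurable
  rw [cz_zero, am_line hf, integral_withDensity_eq_integral_toReal_smul h2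
    (Eventually.of_forall fun _ => ENNReal.ofReal_lt_top)]
  simp only [ENNReal.toReal_ofReal (exp_pos _).le, smul_eq_mul]

theorem meas_line (ψ : Fn) (t : ℝ) (b : BoundedContinuousFunction ℂ ℝ) :
    Measurable fun z => exp (M.γ * (t * ψ z)) * b (cayley z) :=
  (continuous_const.mul (continuous_const.mul ψ.continuous)).rexp.measurable.mul
    (b.continuous.measurable.comp Bd.chart_cayley.meas)

theorem norm_line (hψ : Dir z₀ ψ) {t a : ℝ} (ht : |t| ≤ a) (b : BoundedContinuousFunction ℂ ℝ)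
    (z : ℂ) : ‖exp (M.γ * (t * ψ z)) * b (cayley z)‖ ≤ exp (2 * M.γ * a) * ‖b‖ := by
  rw [norm_mul, norm_of_nonneg (exp_pos _).le]
  exact mul_le_mul (exp_le hψ ht z) (b.norm_coe_le_norm _) (norm_nonneg _) (exp_pos _).le

theorem int_line (hψ : Dir z₀ ψ) (hfin : am M H f univ ≠ ∞) (t : ℝ)
    (b : BoundedContinuousFunction ℂ ℝ) :
    Integrable (fun z => exp (M.γ * (t * ψ z)) * b (cayley z)) (am M H f) := by
  have : IsFiniteMeasure (am M H f) := ⟨hfin.lt_top⟩
  exact Integrable.of_bound (meas_line ψ t b).aestronglyMeasurable _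
    (Eventually.of_forall (norm_line hψ le_rfl b))

theorem int_zero (hfin : am M H f univ ≠ ∞) (b : BoundedContinuousFunction ℂ ℝ) :
    Integrable (fun z => b (cayley z)) (am M H f) := by
  have : IsFiniteMeasure (am M H f) := ⟨hfin.lt_top⟩
  exact Integrable.of_bound
    (b.continuous.measurable.comp Bd.chart_cayley.meas).aestronglyMeasurable _
    (Eventually.of_forall fun _ => b.norm_coe_le_norm _)

theorem ae_UH : ∀ᵐ z ∂am M H f, z ∈ UH :=
  withDensity_absolutelyContinuous _ _ (ae_restrict_mem Bd.isOpen_UH.measurableSet)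

theorem wm_le (hψ : Dir z₀ ψ) (s t : ℝ) (a b : ℂ) :
    wm M H (fun z => f z + t * ψ z) a b ≤
      ENNReal.ofReal (exp (M.ξ * (2 * |t - s|))) * wm M H (fun z => f z + s * ψ z) a b := by
  refine wmetOn_le (fun z _ => ?_) a b
  have h1 := (le_abs_self _).trans (abs_mul_le hψ (t - s) z)
  nlinarith [M.ξ_pos]

theorem wm_cont (hψ : Dir z₀ ψ) {a b : ℂ} (hw : wm M H f a b ≠ ∞) :
    Continuous fun t : ℝ => (wm M H (fun z => f z + t * ψ z) a b).toReal := by
  have h0 : wm M H (fun z => f z + 0 * ψ z) a b ≠ ∞ := by simpa using hw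
  have hfin : ∀ t : ℝ, wm M H (fun z => f z + t * ψ z) a b ≠ ∞ := fun t =>
    ne_top_of_le_ne_top (ENNReal.mul_ne_top ENNReal.ofReal_ne_top h0) (wm_le hψ 0 t a b)
  set g : ℝ → ℝ := fun t => (wm M H (fun z => f z + t * ψ z) a b).toReal
  have hle : ∀ s t, g t ≤ exp (M.ξ * (2 * |t - s|)) * g s := fun s t => by
    have := ENNReal.toReal_mono (ENNReal.mul_ne_top ENNReal.ofReal_ne_top (hfin s))
      (wm_le (M := M) (H := H) (f := f) hψ s t a b)
    rwa [ENNReal.toReal_mul, ENNReal.toReal_ofReal (exp_pos _).le] at this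
  refine continuous_iff_continuousAt.2 fun s => ?_
  have u : Tendsto (fun t => exp (M.ξ * (2 * |t - s|)) * g s) (𝓝 s) (𝓝 (g s)) :=
    Continuous.tendsto' (by fun_prop) _ _ (by simp)
  have l : Tendsto (fun t => exp (-(M.ξ * (2 * |t - s|))) * g s) (𝓝 s) (𝓝 (g s)) :=
    Continuous.tendsto' (by fun_prop) _ _ (by simp)
  refine tendsto_of_tendsto_of_tendsto_of_le_of_le l u (fun t => ?_) (hle s)
  have h1 := mul_le_mul_of_nonneg_left (hle t s) (exp_pos (-(M.ξ * (2 * |t - s|)))).le
  rwa [abs_sub_comm s t, ← mul_assoc _ _ (g t), ← exp_add, neg_add_cancel, exp_zero, one_mul] at h1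

theorem sub_mul_le (a b : ℝ) : (b - a) * exp a ≤ exp b - exp a := by
  have h1 := mul_le_mul_of_nonneg_right (add_one_le_exp (b - a)) (exp_pos a).le
  rw [← exp_add, sub_add_cancel] at h1
  linarith

end DetAux

open DetAux

theorem am_le (hψ : Dir z₀ ψ) (hf : ContinuousOn f UH) {t : ℝ} (ht : t ∈ Icc (-1 : ℝ) 1) :
    am M H (fun z => f z + t * ψ z) ≤ ENNReal.ofReal (exp (2 * M.γ)) • am M H f := by
  rw [am_line hf, ← withDensity_const]
  refine withDensity_mono (Eventually.of_forall fun z => ENNReal.ofReal_le_ofReal ?_)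
  simpa using exp_le (M := M) hψ (abs_le.2 ht) z

theorem cz_cont (hψ : Dir z₀ ψ) (hf : ContinuousOn f UH) (hfin : am M H f univ ≠ ∞)
    (hw : ∀ i, wm M H f (x i).1 (x i).2 ≠ ∞) :
    Continuous fun t : ℝ => cz M x β H fun z => f z + t * ψ z := by
  have : IsFiniteMeasure (am M H f) := ⟨hfin.lt_top⟩
  refine Continuous.prodMk (continuous_pi fun i => wm_cont hψ (hw i)) (continuous_pi fun i => ?_)
  have e : (fun t : ℝ => ∫ z, β i z ∂(am M H fun z => f z + t * ψ z).map cayley) =
      fun t => ∫ z, exp (M.γ * (t * ψ z)) * β i (cayley z) ∂am M H f :=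
    funext fun t => cz_line (x := x) hf ψ t i
  rw [e]
  refine continuous_iff_continuousAt.2 fun s => continuousAt_of_dominated
    (bound := fun _ => exp (2 * M.γ * (|s| + 1)) * ‖β i‖)
    (Eventually.of_forall fun t => (meas_line ψ t _).aestronglyMeasurable) ?_ (integrable_const _)
    (Eventually.of_forall fun z => Continuous.continuousAt (by fun_prop))
  filter_upwards [continuous_abs.continuousAt.eventually (gt_mem_nhds (lt_add_one |s|))] with t ht
  exact Eventually.of_forall (norm_line hψ ht.le _)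

theorem cz_mono (hψ : Dir z₀ ψ) (hf : ContinuousOn f UH) (hfin : am M H f univ ≠ ∞)
    (h0 : β 0 = 1) (h1 : ∀ y, 0 ≤ β 1 y ∧ β 1 y ≤ 1)
    (h2 : ∀ z ∈ UH, z ∉ Metric.ball z₀ (1 / 16) → β 1 (cayley z) = 0) {s t : ℝ} (hs : -1 ≤ s)
    (hst : s ≤ t) (ht : t ≤ 1) :
    M.γ * exp (-(2 * M.γ)) / 2 * (cz M x β H f).2 1 * (t - s) ≤
        (cz M x β H fun z => f z + t * ψ z).2 0 - (cz M x β H fun z => f z + s * ψ z).2 0 ∧
      (cz M x β H fun z => f z + t * ψ z).2 0 - (cz M x β H fun z => f z + s * ψ z).2 0 ≤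
        (2 * M.γ + 1) * exp (2 * M.γ) * |(cz M x β H f).2 0| * (t - s) ∧
      (cz M x β H fun z => f z + t * ψ z).2 1 ≤
        (2 * M.γ + 1) * exp (2 * M.γ) * (cz M x β H f).2 1 := by
  have hγ := M.γ_pos
  have hs' : |s| ≤ 1 := abs_le.2 ⟨hs, hst.trans ht⟩
  have ht' : |t| ≤ 1 := abs_le.2 ⟨hs.trans hst, ht⟩
  have hd : 0 ≤ M.γ * (t - s) := mul_nonneg hγ.le (sub_nonneg.2 hst)
  have one : ∀ z, β 0 z = 1 := fun z => by rw [h0]; rfl
  have up : ∀ z, exp (M.γ * (t * ψ z)) ≤ exp (2 * M.γ) := fun z => by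
    simpa using exp_le (M := M) hψ ht' z
  simp only [cz_line hf]
  simp only [cz_zero]
  rw [← integral_sub (int_line hψ hfin t _) (int_line hψ hfin s _)]
  refine ⟨?_, ?_, ?_⟩
  · rw [mul_right_comm, ← integral_const_mul]
    refine integral_mono_ae ((int_zero hfin _).const_mul _)
      ((int_line hψ hfin t _).sub (int_line hψ hfin s _)) (ae_UH.mono fun z hz => ?_)
    have hb : β 1 (cayley z) / 2 ≤ ψ z := by
      by_cases hz' : z ∈ Metric.ball z₀ (1 / 16)
      · linarith [hψ.pos z hz', (h1 (cayley z)).2]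
      · rw [h2 z hz hz', zero_div]
        exact hψ.nonneg z
    have h3 := mul_le_mul_of_nonneg_left (mul_le_mul hb (le_exp (M := M) hψ hs' z) (exp_pos _).le
      (hψ.nonneg z)) hd
    have h4 := sub_mul_le (M.γ * (s * ψ z)) (M.γ * (t * ψ z))
    simp only [one]
    linarith
  · rw [abs_of_nonneg (integral_nonneg fun z => by simp [one]), mul_right_comm,
      ← integral_const_mul]
    refine integral_mono ((int_line hψ hfin t _).sub (int_line hψ hfin s _))
      ((int_zero hfin _).const_mul _) fun z => ?_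
    have h3 := mul_le_mul_of_nonneg_left (mul_le_mul (hψ.le z) (up z) (exp_pos _).le
      zero_le_two) hd
    have h4 := sub_mul_le (M.γ * (t * ψ z)) (M.γ * (s * ψ z))
    have h5 := mul_nonneg (exp_pos (2 * M.γ)).le (sub_nonneg.2 hst)
    simp only [one]
    linarith
  · rw [← integral_const_mul]
    refine integral_mono (int_line hψ hfin t _) ((int_zero hfin _).const_mul _) fun z => ?_
    refine mul_le_mul_of_nonneg_right ((up z).trans ?_) (h1 _).1
    nlinarith [exp_pos (2 * M.γ)]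

end Pool.Agent.Lib.MP_0d9445_pr.Fx
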