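import Pool.Agent.Lib.MP_0d9445_pr.Fx.Defs
import Pool.Agent.Lib.MP_0d9445_pr.Su.Disk

/-! Cameron-Martin directions of the free disk. -/

open MeasureTheory ProbabilityTheory Set Filter Topology Real
open scoped NNReal ENNReal

noncomputable section

namespace Pool.Agent.Lib.MP_0d9445_pr.Fx

namespace DirAux

open LQ.Gauss ComplexConjugate
open scoped RealInnerProductSpace

/-- the difference of the potentials of two concentric circles -/
def bump (z : ℂ) : Fn := Su.pot (-log (1 / 16), z) - Su.pot (-log (1 / 8), z)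

theorem avg_L {z : ℂ} (hz : ‖z‖ ≤ 3 / 4) {r : ℝ} (h0 : 0 < r) (hr : r ≤ 1 / 4) :
    avg (fun y => log (max ‖y‖ 1)) (-log r, z) = 0 := by
  refine (Su.avg_congr (V := Metric.closedBall 0 1) (g := fun _ => 0) (fun y hy => ?_)
    fun y hy => ?_).trans (circleAverage_const _ _ _)
  · rw [mem_closedBall_zero_iff] at hy
    simp only [max_eq_right hy, log_one]
  · rw [mem_closedBall_iff_norm, neg_neg, exp_log h0] at hy
    rw [mem_closedBall_zero_iff]
    linarith [norm_sub_norm_le y z]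

theorem bump_apply {z : ℂ} (hz : ‖z‖ ≤ 3 / 4) (x : ℂ) :
    bump z x = log (max ‖x - z‖ (1 / 8)) - log (max ‖x - z‖ (1 / 16)) := by
  rw [bump, ContinuousMap.sub_apply, Su.pot_apply, Su.pot_apply,
    avg_L hz (by norm_num) (by norm_num), avg_L hz (by norm_num) (by norm_num)]
  simp only [neg_neg]
  rw [exp_log (by norm_num), exp_log (by norm_num)]
  ring

theorem bump_nonneg {z : ℂ} (hz : ‖z‖ ≤ 3 / 4) (x : ℂ) : 0 ≤ bump z x := by
  rw [bump_apply hz]
  exact sub_nonneg.2 (log_le_log (lt_max_of_lt_right (by norm_num))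
    (max_le_max le_rfl (by norm_num)))

theorem bump_le {z : ℂ} (hz : ‖z‖ ≤ 3 / 4) (x : ℂ) : bump z x ≤ 1 := by
  have h0 : 0 < max ‖x - z‖ (1 / 16) := lt_max_of_lt_right (by norm_num)
  have h1 : max ‖x - z‖ (1 / 8) ≤ 2 * max ‖x - z‖ (1 / 16) :=
    max_le (by linarith [le_max_left ‖x - z‖ (1 / 16)]) (by linarith [le_max_right ‖x - z‖ (1 / 16)])
  have h2 := log_le_log (lt_max_of_lt_right (by norm_num)) h1
  rw [log_mul two_ne_zero h0.ne'] at h2
  rw [bump_apply hz]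
  linarith [log_two_lt_d9]

theorem bump_zero {z : ℂ} (hz : ‖z‖ ≤ 3 / 4) {x : ℂ} (hx : 1 / 8 ≤ ‖x - z‖) : bump z x = 0 := by
  rw [bump_apply hz, max_eq_left hx, max_eq_left (by linarith), sub_self]

theorem bump_pos {z : ℂ} (hz : ‖z‖ ≤ 3 / 4) {x : ℂ} (hx : ‖x - z‖ < 1 / 16) :
    1 / 2 ≤ bump z x := by
  rw [bump_apply hz, max_eq_right (by linarith), max_eq_right hx.le,
    ← log_div (by norm_num) (by norm_num), show (1 / 8 : ℝ) / (1 / 16) = 2 by norm_num]
  linarith [log_two_gt_d9]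

theorem avg_dir (z : ℂ) (p : ℝ × ℂ) : avg (bump z + bump (conj z) : Fn) p =
    freeCov p (-log (1 / 16), z) - freeCov p (-log (1 / 8), z) := by
  have h := Mu.avg_add (bump z).continuous (bump (conj z)).continuous p
  refine h.trans ?_
  have e : ∀ a b : Fn, avg (a - b : Fn) p = avg a p - avg b p := fun a b =>
    circleAverage_fun_sub a.continuous.continuousOn.circleIntegrable'
      b.continuous.continuousOn.circleIntegrable'
  simp only [freeCov, CM.gffCov_eq, bump, e]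
  ring

theorem cm_of {ψ : Fn} {q₁ q₂ : ℝ × ℂ} (hψ : ∀ p, avg ψ p = freeCov p q₁ - freeCov p q₂)
    (Ω : Type) [MeasurableSpace Ω] (P : Measure Ω) (φ : Ω → Field) (hφ : IsFreeGFF φ P) :
    ∃ (G : Ω → ℝ) (σ : ℝ), Measurable G ∧ ∀ (t : ℝ) (F : Field → ℝ≥0∞), Measurable F →
      ∫⁻ ω, F (φ ω) ∂P =
        ∫⁻ ω, F (addFn (φ ω) (t • ψ)) * ENNReal.ofReal (exp (-(t * G ω) - t ^ 2 * σ)) ∂P := by
  obtain ⟨K, _, _, hK, W, k, hW, e, hc⟩ := CM.exists_iso' hφ.gauss hφ.mean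
  refine ⟨W (k q₁ - k q₂), ‖k q₁ - k q₂‖ ^ 2 / 2, hW.meas _, fun t F hF => ?_⟩
  set v := k q₁ - k q₂ with hv
  have hm : ∀ p, Measurable fun ω => φ ω p := fun p => (CM.measurable_ev p).comp hφ.meas
  have hs : Measurable fun ω => addFn (φ ω) (-t • ψ) :=
    Su.measurable_addFn hφ.meas measurable_const
  have h2 : Measurable fun (g : Field) x => g x := measurable_pi_lambda _ CM.measurable_ev
  have h1 : (tilt W (-t • v) P).map φ = P.map fun ω => addFn (φ ω) (-t • ψ) := by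
    refine CM.cm_measure_ext ?_
    rw [Measure.map_map h2 hφ.meas, Measure.map_map h2 hs]
    refine (hW.version_map_tilt hm e (-t • v)).trans ?_
    congr 1
    funext ω p
    simp only [Function.comp, Mu.addFn_apply]
    rw [real_inner_smul_left, hv, inner_sub_left, real_inner_comm, real_inner_comm (k p), hc, hc,
      hφ.cov, hφ.cov, ← hψ]
    congr 1
    exact (circleAverage_smul (a := -t) (f := ψ)).symm
  have hF' : Measurable fun H => F (addFn H (t • ψ)) := hF.comp (Su.measurable_shift _)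
  have h3 := lintegral_map (μ := tilt W (-t • v) P) hF' hφ.meas
  rw [h1, lintegral_map hF' hs, hW.lintegral_tilt_eq _ (hF'.fun_comp hφ.meas).aemeasurable] at h3
  simp only [Mu.addFn_addFn, neg_smul, neg_add_cancel, Mu.addFn_zero] at h3
  refine h3.trans (lintegral_congr_ae ?_)
  filter_upwards [hW.neg (t • v), hW.smul t v] with ω a1 a2
  rw [mul_comm, dens, a1, a2, norm_neg, norm_smul, mul_pow, Real.norm_eq_abs, sq_abs, mul_div_assoc]

end DirAux

theorem exists_dir {z₀ : ℂ} (him : z₀.im = 1 / 2) (hre : |z₀.re| ≤ 1 / 4) : ∃ ψ, Dir z₀ ψ := by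
  have h0 : ‖z₀‖ ≤ 3 / 4 := by
    have := Complex.norm_le_abs_re_add_abs_im z₀
    rw [him, abs_of_pos (a := (1 / 2 : ℝ)) (by norm_num)] at this
    linarith
  have h1 : ‖(starRingEnd ℂ) z₀‖ ≤ 3 / 4 := by rwa [Complex.norm_conj]
  have hc : ∀ z : ℂ, -(1 / 4) ≤ z.im → DirAux.bump ((starRingEnd ℂ) z₀) z = 0 := fun z hz => by
    refine DirAux.bump_zero h1 ?_
    have := (le_abs_self _).trans (Complex.abs_im_le_norm (z - (starRingEnd ℂ) z₀))
    rw [Complex.sub_im, Complex.conj_im, him] at this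
    linarith
  refine ⟨DirAux.bump z₀ + DirAux.bump ((starRingEnd ℂ) z₀), fun z => ?_, fun z => ?_,
    fun z hz => ?_, fun z hz hz' => ?_, fun z hz => ?_, DirAux.cm_of (DirAux.avg_dir z₀)⟩ <;>
    rw [ContinuousMap.add_apply]
  · exact add_nonneg (DirAux.bump_nonneg h0 z) (DirAux.bump_nonneg h1 z)
  · linarith [DirAux.bump_le h0 z, DirAux.bump_le h1 z]
  · linarith [DirAux.bump_pos h0 (mem_ball_iff_norm.1 hz), DirAux.bump_nonneg h1 z]
  · rw [hc z (by linarith), DirAux.bump_zero h0 (not_lt.1 (mem_ball_iff_norm.not.1 hz')), add_zero]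
  · rw [hc z (abs_le.1 hz).1, add_zero]
    refine DirAux.bump_zero h0 ?_
    have := (neg_le_abs _).trans (Complex.abs_im_le_norm (z - z₀))
    rw [Complex.sub_im, him] at this
    linarith [(abs_le.1 hz).2]

variable {Ω : Type} [MeasurableSpace Ω] {P P₀ : Measure Ω} {h φ : Ω → Field} {g f : Ω → ℂ → ℝ}
  {s : ℂ → ℝ} {c : Field → ℝ} {w : Field → ℝ≥0∞} {γ Q ℓ : ℝ} {z₀ : ℂ} {ψ : Fn}

theorem exists_data [IsProbabilityMeasure P] (hD : IsDisk γ Q ℓ P h f) :
    ∃ P₀ φ g s c w, Data P P₀ h φ g f s c w := by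
  obtain ⟨P₀, φ, g, ν, c, hD⟩ := hD
  set len : Field → ℝ≥0∞ := fun H => ∫⁻ x : ℝ, ENNReal.ofReal (exp (γ / 2 * sphereFn γ Q x)) ∂ν H
    with hlen
  obtain ⟨hp, hν, hae, hP, hf⟩ := hD
  have hw : Measurable fun x : ℝ => ENNReal.ofReal (exp (γ / 2 * sphereFn γ Q x)) := by
    unfold sphereFn; fun_prop
  have ha : Measurable len := (Measure.measurable_lintegral hw).comp hν
  refine ⟨P₀, φ, g, sphereFn γ Q, fun H => 2 / γ * log ((len H).toReal / ℓ),
    fun H => c * len H ^ (4 / γ ^ 2 - 2), inferInstance, hp, (ha.pow_const _).const_mul _,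
    (ha.ennreal_toReal.div_const ℓ).log.const_mul _, hP, fun z hz => ?_, hf, fun z₀ ψ hψ t => ?_⟩
  · simp only [mem_compl_iff, mem_insert_iff, mem_singleton_iff, not_or] at hz
    have c0 : ContinuousAt (fun z : ℂ => log ‖z‖) z :=
      continuous_norm.continuousAt.log (norm_ne_zero_iff.2 hz.1)
    have c1 : ContinuousAt (fun z : ℂ => log ‖z - 1‖) z :=
      ContinuousAt.log (by fun_prop) (norm_ne_zero_iff.2 (sub_ne_zero.2 hz.2))
    exact (((continuousAt_const.mul c0).sub (continuousAt_const.mul c1)).add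
      (continuousAt_const.mul Su.continuous_L.continuousAt)).continuousWithinAt
  obtain ⟨G, σ, hG, hcm⟩ := hψ.cm Ω P₀ φ hp.free
  have hS := (Su.measurableSet_vb (γ := γ) hν).compl
  have hF : Measurable (indicator {H | Su.VB γ H (ν H)}ᶜ (1 : Field → ℝ≥0∞)) :=
    measurable_one.indicator hS
  have h1 := hcm t _ hF
  rw [lintegral_congr_ae (g := fun _ => 0) (hae.mono fun ω hω => indicator_of_notMem
    (not_not.2 (Su.vb_of hω.1)) _), lintegral_zero] at h1
  have hm : Measurable fun ω => ENNReal.ofReal (exp (-(t * G ω) - t ^ 2 * σ)) := by fun_prop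
  have h2 := (lintegral_eq_zero_iff ((hF.fun_comp (Su.measurable_addFn hp.free.meas
    measurable_const)).fun_mul hm)).1 h1.symm
  filter_upwards [hae, h2] with ω hω h3
  have h4 : Su.VB γ (addFn (φ ω) (t • ψ)) (ν (addFn (φ ω) (t • ψ))) := by
    by_contra hn
    rw [indicator_of_mem (s := {H | Su.VB γ H (ν H)}ᶜ) hn, Pi.one_apply, one_mul] at h3
    exact (ENNReal.ofReal_pos.2 (exp_pos _)).ne' h3
  have e1 : len (addFn (φ ω) (t • ψ)) = len (φ ω) := by
    simp only [hlen]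
    rw [Su.vb_scale hω.1 h4 (K := 0) (η := 1 / 4) (by norm_num) fun z hz => by
      simp [hψ.real z hz], mul_zero, exp_zero, ENNReal.ofReal_one, one_smul]
  simp only [e1, and_self]

theorem Data.tilt (H : Data P P₀ h φ g f s c w) (hψ : Dir z₀ ψ) :
    ∃ r R : Ω → ℝ≥0∞, Measurable r ∧ Measurable R ∧ (∀ ω, r ω ≠ 0) ∧ ∫⁻ ω, R ω ∂P ≠ ∞ ∧
      ∀ t ∈ Icc (-1 : ℝ) 1, ∀ F : Field → ℝ≥0∞, Measurable F →
        ∫⁻ ω, F (φ ω) ∂P ≤ ∫⁻ ω, F (addFn (φ ω) (t • ψ)) * R ω ∂P ∧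
        ∫⁻ ω, F (addFn (φ ω) (t • ψ)) * r ω ∂P ≤ ∫⁻ ω, F (φ ω) ∂P := by
  obtain ⟨G, σ, hG, hcm⟩ := hψ.cm Ω P₀ φ H.pair.free
  have hφ := H.pair.free.meas
  have := H.prob
  set ρ : ℝ → Ω → ℝ≥0∞ := fun t ω => ENNReal.ofReal (exp (-(t * G ω) - t ^ 2 * σ)) with hρ
  have hm : ∀ t, Measurable (ρ t) := fun t => by simp only [hρ]; fun_prop
  have key : ∀ (t : ℝ) (F : Field → ℝ≥0∞), Measurable F →
      ∫⁻ ω, F (φ ω) ∂P = ∫⁻ ω, F (addFn (φ ω) (t • ψ)) * ρ t ω ∂P := fun t F hF => by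
    rw [H.dens, lintegral_withDensity_eq_lintegral_mul _ (H.mw.fun_comp hφ) (hF.fun_comp hφ),
      lintegral_withDensity_eq_lintegral_mul _ (H.mw.fun_comp hφ)
        ((hF.fun_comp (Su.measurable_addFn hφ measurable_const)).fun_mul (hm t))]
    refine (hcm t (fun H => w H * F H) (H.mw.fun_mul hF)).trans (lintegral_congr_ae ?_)
    filter_upwards [H.inv z₀ ψ hψ t] with ω hω
    rw [hω.1, Pi.mul_apply, mul_assoc]
  have one : ∀ t, ∫⁻ ω, ρ t ω ∂P = 1 := fun t => by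
    simpa using (key t (fun _ => 1) measurable_const).symm
  have hb : ∀ t ∈ Icc (-1 : ℝ) 1, ∀ ω, |-(t * G ω) - t ^ 2 * σ| ≤ |G ω| + |σ| := fun t ht ω => by
    have h1 : |t| ≤ 1 := abs_le.2 ht
    have h2 : |t ^ 2| ≤ 1 := by rw [abs_pow]; exact pow_le_one₀ (abs_nonneg t) h1
    refine (abs_sub _ _).trans (add_le_add ?_ ?_)
    · rw [abs_neg, abs_mul]; exact mul_le_of_le_one_left (abs_nonneg _) h1
    · rw [abs_mul]; exact mul_le_of_le_one_left (abs_nonneg _) h2
  refine ⟨fun ω => ENNReal.ofReal (exp (-(|G ω| + |σ|))),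
    fun ω => ENNReal.ofReal (exp (2 * |σ|)) * (ρ 1 ω + ρ (-1) ω), by fun_prop,
    ((hm 1).add (hm (-1))).const_mul _, fun ω => (ENNReal.ofReal_pos.2 (exp_pos _)).ne', ?_,
    fun t ht F hF => ?_⟩
  · rw [lintegral_const_mul' _ _ ENNReal.ofReal_ne_top, lintegral_add_left (hm 1), one, one]
    exact ENNReal.mul_ne_top ENNReal.ofReal_ne_top (by simp)
  rw [key t F hF]
  refine ⟨lintegral_mono fun ω => mul_le_mul' le_rfl ?_,
    lintegral_mono fun ω => mul_le_mul' le_rfl ?_⟩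
  · simp only [hρ]
    rw [← ENNReal.ofReal_add (exp_pos _).le (exp_pos _).le, ← ENNReal.ofReal_mul (exp_pos _).le,
      mul_add, ← exp_add, ← exp_add]
    refine ENNReal.ofReal_le_ofReal ?_
    have h1 := (le_abs_self _).trans (hb t ht ω)
    have h2 := le_abs_self σ
    rcases abs_cases (G ω) with h3 | h3
    · exact le_add_of_nonneg_of_le (exp_pos _).le (exp_le_exp.2 (by linarith [h3.1]))
    · exact le_add_of_le_of_nonneg (exp_le_exp.2 (by linarith [h3.1])) (exp_pos _).le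
  · exact ENNReal.ofReal_le_ofReal (exp_le_exp.2 (abs_le.1 (hb t ht ω)).1)

end Pool.Agent.Lib.MP_0d9445_pr.Fx
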