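import Pool.Agent.Lib.MP_0d9445_pr.Fx.Weyl
import Pool.Agent.Lib.MP_0d9445_pr.Bd.Chart
import Pool.Agent.Lib.MP_0d9445_pr.Bd.Pull
import Pool.Agent.Lib.MP_0d9445_pr.Bd.Cd

/-! A surface is determined by countably many coordinates. -/

open MeasureTheory ProbabilityTheory Set Filter Topology Real LQ.Met
open scoped NNReal ENNReal

noncomputable section

namespace Pool.Agent.Lib.MP_0d9445_pr.Fx

open Bd

theorem exists_sep (b : BoundedContinuousFunction ℂ ℝ) :
    ∃ β : ℕ → BoundedContinuousFunction ℂ ℝ, β 0 = 1 ∧ β 1 = b ∧ ∀ μ ν : Measure ℂ,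
      μ univ ≠ ∞ → ν univ ≠ ∞ → (∀ i, ∫ z, β i z ∂μ = ∫ z, β i z ∂ν) → μ = ν := by
  let q : ℕ → ℂ := TopologicalSpace.denseSeq ℂ
  let co : ℕ → BoundedContinuousFunction ℂ ℝ := fun n =>
    .ofNormedAddCommGroup (fun z => cos (inner ℝ z (q n))) (by fun_prop) 1 fun _ => abs_cos_le_one _
  let si : ℕ → BoundedContinuousFunction ℂ ℝ := fun n =>
    .ofNormedAddCommGroup (fun z => sin (inner ℝ z (q n))) (by fun_prop) 1 fun _ => abs_sin_le_one _
  let β : ℕ → BoundedContinuousFunction ℂ ℝ := fun i =>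
    match i with
    | 0 => 1
    | 1 => b
    | n + 2 => if n % 2 = 0 then co (n / 2) else si (n / 2)
  refine ⟨β, rfl, rfl, fun μ ν hμ hν h => ?_⟩
  have : IsFiniteMeasure μ := ⟨hμ.lt_top⟩
  have : IsFiniteMeasure ν := ⟨hν.lt_top⟩
  have key : ∀ (m : Measure ℂ) [IsFiniteMeasure m] (n : ℕ), charFun m (q n) =
      (∫ z, β (2 * n + 2) z ∂m : ℝ) + (∫ z, β (2 * n + 1 + 2) z ∂m : ℝ) * Complex.I := by
    intro m _ n
    have e1 : β (2 * n + 2) = co n := by
      simp only [β]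
      rw [if_pos (by omega), show 2 * n / 2 = n by omega]
    have e2 : β (2 * n + 1 + 2) = si n := by
      simp only [β]
      rw [if_neg (by omega), show (2 * n + 1) / 2 = n by omega]
    rw [e1, e2, charFun_apply, ← integral_complex_ofReal, ← integral_complex_ofReal,
      ← integral_mul_const, ← integral_add (f := fun z => ((co n z : ℝ) : ℂ))
        (g := fun z => ((si n z : ℝ) : ℂ) * Complex.I) ((co n).integrable m).ofReal
        (((si n).integrable m).ofReal.mul_const _)]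
    refine integral_congr_ae (Eventually.of_forall fun z => ?_)
    simp only [co, si, BoundedContinuousFunction.coe_ofNormedAddCommGroup]
    rw [Complex.exp_mul_I, ← Complex.ofReal_cos, ← Complex.ofReal_sin]
  refine Measure.ext_of_charFun ((TopologicalSpace.denseRange_denseSeq ℂ).equalizer
    continuous_charFun continuous_charFun (funext fun n => ?_))
  exact (key μ n).trans (by rw [h (2 * n + 2), h (2 * n + 1 + 2)]; exact (key ν n).symm)

theorem exists_dense : ∃ x : ℕ → ℂ × ℂ, (∀ i, x i ∈ UH ×ˢ UH) ∧ UH ×ˢ UH ⊆ closure (range x) := by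
  have : Nonempty (UH ×ˢ UH : Set (ℂ × ℂ)) :=
    ⟨⟨(Complex.I, Complex.I), by simp [UH], by simp [UH]⟩⟩
  refine ⟨fun i => (TopologicalSpace.denseSeq (UH ×ˢ UH : Set (ℂ × ℂ)) i : ℂ × ℂ),
    fun i => Subtype.property _, ?_⟩
  have := Subtype.dense_iff.1 (TopologicalSpace.denseRange_denseSeq (UH ×ˢ UH : Set (ℂ × ℂ)))
  rwa [← range_comp] at this

theorem exists_bump {z₀ : ℂ} (hz : z₀ ∈ UH) {r : ℝ} (hr : 0 < r) :
    ∃ b : BoundedContinuousFunction ℂ ℝ, (∀ y, 0 ≤ b y ∧ b y ≤ 1) ∧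
      (∀ z ∈ UH, z ∉ Metric.ball z₀ r → b (cayley z) = 0) ∧
      ∀ m : Measure ℂ, m univ ≠ ∞ →
        (∀ U : Set ℂ, IsOpen U → U ⊆ Metric.ball 0 1 → U.Nonempty → m U ≠ 0) →
        0 < ∫ y, b y ∂m := by
  have c := chart_cayley
  obtain ⟨η, hη, H⟩ := Metric.continuousWithinAt_iff.1 (c.cont _ (c.mem (subset_closure hz))) r hr
  have k : ∀ y : ℂ, 0 ≤ max 0 (min 1 (η - dist y (cayley z₀))) ∧
      max 0 (min 1 (η - dist y (cayley z₀))) ≤ 1 :=
    fun y => ⟨le_max_left _ _, max_le zero_le_one (min_le_left _ _)⟩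
  let b : BoundedContinuousFunction ℂ ℝ :=
    .ofNormedAddCommGroup (fun y => max 0 (min 1 (η - dist y (cayley z₀)))) (by fun_prop) 1
      fun y => by rw [Real.norm_of_nonneg (k y).1]; exact (k y).2
  refine ⟨b, k, fun z hz' hr' => ?_, fun m hm hU => ?_⟩
  · refine max_eq_left ((min_le_right _ _).trans (sub_nonpos.2 (not_lt.1 fun hlt => hr' ?_)))
    have := H (c.mem (subset_closure hz')) hlt
    rwa [c.inv _ (subset_closure hz'), c.inv _ (subset_closure hz)] at this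
  · have : IsFiniteMeasure m := ⟨hm.lt_top⟩
    refine (integral_pos_iff_support_of_nonneg (fun y => (k y).1) (b.integrable m)).2 ?_
    refine (pos_iff_ne_zero.2 (hU (Metric.ball (cayley z₀) η ∩ Metric.ball 0 1)
      (Metric.isOpen_ball.inter Metric.isOpen_ball) inter_subset_right
      ⟨_, Metric.mem_ball_self hη, (c.mem_iff (subset_closure hz)).2 hz⟩)).trans_le
      (measure_mono fun y hy => ?_)
    exact (lt_max_of_lt_right (lt_min one_pos (sub_pos.2 hy.1))).ne'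

variable {χ χi : ℂ → ℂ} {O E : Set ℂ} {D : ℂ → ℂ → ℝ} {F₀ F : ℂ → ℝ} {K : ℝ} {d d' : Met}
  {x : ℕ → ℂ × ℂ}

theorem ident (c : Chart χ χi O E) (hD : IsMet D) (hF : ∀ z ∈ UH, |F z - F₀ z| ≤ K)
    (h' : MetOn (closure O) d')
    (e' : ∀ a ∈ UH, ∀ b ∈ UH, ENNReal.ofReal (d' (χ a, χ b)) = wmetOn F₀ D UH a b)
    (hx : ∀ i, x i ∈ UH ×ˢ UH) (hd : UH ×ˢ UH ⊆ closure (range x))
    (e : ∀ i, d (χ (x i).1, χ (x i).2) = (wmetOn F D UH (x i).1 (x i).2).toReal) :
    MetOn (closure O) d ∧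
      (∀ a ∈ UH, ∀ b ∈ UH,
        DU (fun a b => d (χ a, χ b)) UH a b = ENNReal.ofReal (d (χ a, χ b))) ∧
      ∀ U : Set ℂ, IsOpen U → U ⊆ UH → ∀ a ∈ U, ∀ b ∈ U,
        DU (fun a b => d (χ a, χ b)) U a b = wmetOn F D U a b := by
  have hK : 0 < exp K := exp_pos K
  have mO : ∀ a ∈ UH, χ a ∈ closure O := fun a ha => (c.mem (subset_closure ha)).1
  have up : ∀ a ∈ UH, ∀ b ∈ UH,
      wmetOn F D UH a b ≤ ENNReal.ofReal (exp K * d' (χ a, χ b)) := fun a ha b hb => by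
    rw [ENNReal.ofReal_mul hK.le, e' a ha b hb]
    exact wmetOn_le (fun z hz => by linarith [(abs_le.1 (hF z hz)).2]) a b
  have fin : ∀ a ∈ UH, ∀ b ∈ UH, wmetOn F D UH a b ≠ ∞ := fun a ha b hb =>
    ((up a ha b hb).trans_lt ENNReal.ofReal_lt_top).ne
  let w : ℂ × ℂ → ℝ := fun p => (wmetOn F D UH p.1 p.2).toReal
  have up' : ∀ a ∈ UH, ∀ b ∈ UH, w (a, b) ≤ exp K * d' (χ a, χ b) := fun a ha b hb =>
    ENNReal.toReal_le_of_le_ofReal (mul_nonneg hK.le (Bd.MetOn.nonneg h' (mO a ha) (mO b hb))) (up a ha b hb)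
  have lo : ∀ a ∈ UH, ∀ b ∈ UH, d' (χ a, χ b) ≤ exp K * w (a, b) := fun a ha b hb => by
    have h1 := wmetOn_le (f₁ := F₀) (f₂ := F) (D := D) (U := UH) (b := K)
      (fun z hz => by linarith [(abs_le.1 (hF z hz)).1]) a b
    rw [← e' a ha b hb, ← ENNReal.ofReal_toReal (fin a ha b hb), ← ENNReal.ofReal_mul hK.le] at h1
    exact (ENNReal.ofReal_le_ofReal_iff (mul_nonneg hK.le ENNReal.toReal_nonneg)).1 h1
  have wt : ∀ a ∈ UH, ∀ b ∈ UH, ∀ z ∈ UH, w (a, z) ≤ w (a, b) + w (b, z) := fun a ha b hb z hz =>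
    (ENNReal.toReal_mono (ENNReal.add_ne_top.2 ⟨fin a ha b hb, fin b hb z hz⟩)
      (wmetOn_triangle hD a b z)).trans_eq (ENNReal.toReal_add (fin a ha b hb) (fin b hb z hz))
  have ws : ∀ a b, w (a, b) = w (b, a) := fun a b => congrArg ENNReal.toReal (wmetOn_symm hD a b)
  have cχ : ContinuousOn χ UH := c.lip.continuousOn.mono subset_closure
  have c1 : ContinuousOn (fun p : ℂ × ℂ => χ p.1) (UH ×ˢ UH) :=
    cχ.comp continuousOn_fst fun _ hp => hp.1
  have c2 : ContinuousOn (fun p : ℂ × ℂ => χ p.2) (UH ×ˢ UH) :=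
    cχ.comp continuousOn_snd fun _ hp => hp.2
  have cd : ContinuousOn (fun p : ℂ × ℂ => d (χ p.1, χ p.2)) (UH ×ˢ UH) :=
    d.continuous.comp_continuousOn (c1.prodMk c2)
  have cw : ContinuousOn w (UH ×ˢ UH) := by
    rintro ⟨a, b⟩ ⟨ha, hb⟩
    have t : ContinuousWithinAt
        (fun p : ℂ × ℂ => exp K * d' (χ p.1, χ a) + exp K * d' (χ p.2, χ b)) (UH ×ˢ UH) (a, b) :=
      ((continuousOn_const.mul (d'.continuous.comp_continuousOn (c1.prodMk continuousOn_const))).add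
        (continuousOn_const.mul (d'.continuous.comp_continuousOn (c2.prodMk continuousOn_const))))
        _ ⟨ha, hb⟩
    have t0 : exp K * d' (χ a, χ a) + exp K * d' (χ b, χ b) = 0 := by
      rw [h'.self _ (mO a ha), h'.self _ (mO b hb), mul_zero, add_zero]
    refine tendsto_iff_dist_tendsto_zero.2 (squeeze_zero' (Eventually.of_forall fun _ => dist_nonneg)
      (eventually_nhdsWithin_of_forall ?_) (t0 ▸ t.tendsto))
    rintro ⟨a', b'⟩ ⟨ha', hb'⟩
    have := up' a' ha' a ha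
    have := up' b' hb' b hb
    rw [Real.dist_eq, abs_le]
    constructor
    · linarith [wt a ha a' ha' b hb, wt a' ha' b' hb' b hb, ws a a']
    · linarith [wt a' ha' a ha b' hb', wt a ha b hb b' hb', ws b b']
  have eq : ∀ a ∈ UH, ∀ b ∈ UH, d (χ a, χ b) = w (a, b) := fun a ha b hb =>
    EqOn.of_subset_closure (s := range x) (t := UH ×ˢ UH)
      (f := fun p : ℂ × ℂ => d (χ p.1, χ p.2)) (g := w) (by rintro _ ⟨i, rfl⟩; exact e i) cd cw
      (by rintro _ ⟨i, rfl⟩; exact hx i) hd (mk_mem_prod ha hb)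
  have pre : ∀ y ∈ O, ∃ a ∈ UH, χ a = y := fun y hy => by rwa [← c.image] at hy
  have cmp : ∀ p ∈ closure O ×ˢ closure O, d' p ≤ exp K * d p := by
    rw [← closure_prod_eq]
    refine closure_minimal (t := {p | d' p ≤ exp K * d p}) ?_ (isClosed_le (by fun_prop) (by fun_prop))
    rintro ⟨y, z⟩ ⟨hy, hz⟩
    obtain ⟨a, ha, rfl⟩ := pre y hy
    obtain ⟨b, hb, rfl⟩ := pre z hz
    exact (lo a ha b hb).trans_eq (by rw [eq a ha b hb])
  have met : MetOn (closure O) d := by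
    refine ⟨?_, fun y hy z hz => ?_, fun y hy z hz u hu => ?_, fun y hy ε hε => ?_⟩
    · refine closure_minimal (t := {y | d (y, y) = 0}) (fun y hy => ?_)
        (isClosed_eq (by fun_prop) continuous_const)
      obtain ⟨a, ha, rfl⟩ := pre y hy
      exact (eq a ha a ha).trans (by simp only [w]; rw [wmetOn_self hD ha, ENNReal.toReal_zero])
    · refine closure_minimal (s := O ×ˢ O) (t := {p : ℂ × ℂ | d (p.1, p.2) = d (p.2, p.1)}) ?_
        (isClosed_eq (by fun_prop) (by fun_prop))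
        (a := (y, z)) (by rw [closure_prod_eq]; exact ⟨hy, hz⟩)
      rintro ⟨y, z⟩ ⟨hy, hz⟩
      obtain ⟨a, ha, rfl⟩ := pre y hy
      obtain ⟨b, hb, rfl⟩ := pre z hz
      exact (eq a ha b hb).trans ((ws a b).trans (eq b hb a ha).symm)
    · refine closure_minimal (s := O ×ˢ O ×ˢ O)
        (t := {p : ℂ × ℂ × ℂ | d (p.1, p.2.2) ≤ d (p.1, p.2.1) + d (p.2.1, p.2.2)}) ?_
        (isClosed_le (by fun_prop) (by fun_prop))
        (a := (y, z, u)) (by rw [closure_prod_eq, closure_prod_eq]; exact ⟨hy, hz, hu⟩)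
      rintro ⟨y, z, u⟩ ⟨hy, hz, hu⟩
      obtain ⟨a, ha, rfl⟩ := pre y hy
      obtain ⟨b, hb, rfl⟩ := pre z hz
      obtain ⟨v, hv, rfl⟩ := pre u hu
      show d (χ a, χ v) ≤ d (χ a, χ b) + d (χ b, χ v)
      rw [eq a ha v hv, eq a ha b hb, eq b hb v hv]
      exact wt a ha b hb v hv
    · obtain ⟨δ, hδ, H⟩ := h'.topo y hy ε hε
      refine ⟨δ / exp K, div_pos hδ hK, fun z hz hlt => H z hz ?_⟩
      exact (cmp (y, z) ⟨hy, hz⟩).trans_lt ((lt_div_iff₀' hK).1 hlt)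
  have eq' : ∀ a ∈ UH, ∀ b ∈ UH, ENNReal.ofReal (d (χ a, χ b)) = wmetOn F D UH a b :=
    fun a ha b hb => by rw [eq a ha b hb, ENNReal.ofReal_toReal (fin a ha b hb)]
  have main : ∀ U : Set ℂ, IsOpen U → U ⊆ UH → ∀ a ∈ U, ∀ b ∈ U,
      DU (fun a b => d (χ a, χ b)) U a b = wmetOn F D U a b := fun U hU hUO a ha b hb =>
    DU_eq_wmetOn hD isOpen_UH eq' cd (fun y hy ε hε => by
      obtain ⟨δ, hδ, H⟩ := (c.metOn_pull met).topo y (subset_closure hy) ε hε
      refine ⟨δ, hδ, fun z hz hlt => H z (subset_closure hz) ?_⟩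
      rwa [c.pull_apply d (subset_closure hy) (subset_closure hz)]) hU hUO ha hb
  exact ⟨met, fun a ha b hb => (main UH isOpen_UH Subset.rfl a ha b hb).trans (eq' a ha b hb).symm,
    main⟩

end Pool.Agent.Lib.MP_0d9445_pr.Fx
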