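import Pool.Agent.Lib.MP_0d9445_pr.Met.Weyl

/-! Weyl scaling is a length metric; its internal metrics. -/

set_option autoImplicit false

open Set MeasureTheory
open scoped ENNReal Topology

namespace LQ.Met

variable {E : Type*} [MetricSpace E] {D D' d : E → E → ℝ} {f : E → ℝ} {U V O : Set E}

namespace WeylAux

theorem int_shift (g : ℝ → ℝ≥0∞) (s t : ℝ) :
    ∫⁻ r in Icc 0 (t - s), g (s + r) = ∫⁻ r in Icc s t, g r := by
  have := (measurePreserving_add_left volume s).setLIntegral_comp_preimage_emb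
    (MeasurableEquiv.addLeft s).measurableEmbedding g (Icc s t)
  rwa [preimage_const_add_Icc, sub_self] at this

theorem int_rev (g : ℝ → ℝ≥0∞) (L : ℝ) :
    ∫⁻ r in Icc 0 L, g (L - r) = ∫⁻ r in Icc 0 L, g r := by
  have := (Measure.measurePreserving_sub_left volume L).setLIntegral_comp_preimage_emb
    (MeasurableEquiv.subLeft L).measurableEmbedding g (Icc 0 L)
  rwa [preimage_const_sub_Icc, sub_self, sub_zero] at this

theorem int_add (g : ℝ → ℝ≥0∞) {a b c : ℝ} (hab : a ≤ b) (hbc : b ≤ c) :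
    (∫⁻ r in Icc a b, g r) + ∫⁻ r in Icc b c, g r = ∫⁻ r in Icc a c, g r := by
  rw [← Icc_union_Ioc_eq_Icc hab hbc, lintegral_union measurableSet_Ioc
    (disjoint_left.2 fun r h1 h2 => absurd h1.2 (not_le.2 h2.1)),
    Measure.restrict_congr_set (Ioc_ae_eq_Icc (a := b) (b := c))]

variable {x y z : E} {L L' : ℝ} {P Q : ℝ → E}

theorem shift (h : IsMet D) (u : UP D x y L P) {s t : ℝ} (hs : 0 ≤ s) (hst : s ≤ t)
    (ht : t ≤ L) : UP D (P s) (P t) (t - s) fun r => P (s + r) where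
  nonneg := sub_nonneg.2 hst
  cont := u.cont.comp (by fun_prop) fun r hr => ⟨by linarith [hr.1], by linarith [hr.2]⟩
  src := by rw [add_zero]
  tgt := by rw [add_sub_cancel]
  speed a b ha hab hb := by
    rw [len_comp h P (φ := fun r => s + r) fun _ _ _ _ h' => by linarith, image_const_add_Icc,
      u.speed _ _ (by linarith) (by linarith) (by linarith), add_sub_add_left_eq_sub]

theorem rev (h : IsMet D) (u : UP D x y L P) : UP D y x L fun r => P (L - r) where
  nonneg := u.nonneg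
  cont := u.cont.comp (by fun_prop) fun r hr => ⟨by linarith [hr.2], by linarith [hr.1]⟩
  src := by rw [sub_zero, u.tgt]
  tgt := by rw [sub_self, u.src]
  speed a b ha hab hb := by
    rw [len_comp_anti h P (φ := fun r => L - r) fun _ _ _ _ h' => by linarith,
      image_const_sub_Icc, u.speed _ _ (by linarith) (by linarith) (by linarith),
      sub_sub_sub_cancel_left]

/-- concatenation -/
theorem append (h : IsMet D) (u : UP D x y L P) (v : UP D y z L' Q) :
    ∃ R, UP D x z (L + L') R ∧ EqOn R P (Icc 0 L) ∧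
      EqOn R (fun r => Q (r - L)) (Icc L (L + L')) := by
  set R : ℝ → E := fun r => if r ≤ L then P r else Q (r - L) with hR
  have e1 : EqOn R P (Icc 0 L) := fun r hr => if_pos hr.2
  have e2 : EqOn R (fun r => Q (r - L)) (Icc L (L + L')) := fun r hr => by
    by_cases h' : r ≤ L
    · obtain rfl : r = L := le_antisymm h' hr.1
      simp only [hR, le_refl, if_true, sub_self, u.tgt, v.src]
    · exact if_neg h'
  have hL := u.nonneg
  have hL' := v.nonneg
  have s1 : ∀ a b, 0 ≤ a → a ≤ b → b ≤ L → len D R (Icc a b) = ENNReal.ofReal (b - a) :=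
    fun a b ha hab hb => by
      rw [len_congr D (e1.mono (Icc_subset_Icc ha hb)), u.speed a b ha hab hb]
  have s2 : ∀ a b, L ≤ a → a ≤ b → b ≤ L + L' → len D R (Icc a b) = ENNReal.ofReal (b - a) :=
    fun a b ha hab hb => by
      rw [len_congr D (e2.mono (Icc_subset_Icc ha hb)),
        len_comp h Q (φ := fun r => r - L) fun _ _ _ _ h' => by linarith, image_sub_const_Icc,
        v.speed _ _ (by linarith) (by linarith) (by linarith), sub_sub_sub_cancel_right]
  refine ⟨R, ⟨by linarith, ?_, ?_, ?_, fun a b ha hab hb => ?_⟩, e1, e2⟩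
  · rw [← Icc_union_Icc_eq_Icc hL (by linarith : L ≤ L + L')]
    refine (u.cont.congr e1).union_of_isClosed (ContinuousOn.congr ?_ e2) isClosed_Icc isClosed_Icc
    exact v.cont.comp (by fun_prop) fun r hr => ⟨by linarith [hr.1], by linarith [hr.2]⟩
  · rw [e1 ⟨le_rfl, hL⟩, u.src]
  · rw [e2 ⟨by linarith, le_rfl⟩]
    simp only [add_sub_cancel_left, v.tgt]
  · rcases le_total b L with h1 | h1
    · exact s1 a b ha hab h1
    rcases le_total L a with h2 | h2
    · exact s2 a b h2 hab hb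
    rw [← len_add h R h2 h1, s1 a L ha h2 le_rfl, s2 L b le_rfl h1 hb,
      ← ENNReal.ofReal_add (by linarith) (by linarith)]
    congr 1
    ring

theorem le_piece (h : IsMet D) (u : UP D x y L P) (hm : MapsTo P (Icc 0 L) U) {s t : ℝ}
    (hs : 0 ≤ s) (hst : s ≤ t) (ht : t ≤ L) :
    wmetOn f D U (P s) (P t) ≤ ∫⁻ r in Icc s t, ENNReal.ofReal (Real.exp (f (P r))) :=
  (wmetOn_le_path (shift h u hs hst ht) fun r hr =>
    hm ⟨by linarith [hr.1], by linarith [hr.2]⟩).trans_eq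
    (int_shift (fun r => ENNReal.ofReal (Real.exp (f (P r)))) s t)

theorem symm_le (h : IsMet D) (x y : E) : wmetOn f D U y x ≤ wmetOn f D U x y :=
  le_iInf₂ fun L P => le_iInf₂ fun u hm => (wmetOn_le_path (rev h u) fun r hr =>
    hm ⟨by linarith [hr.2], by linarith [hr.1]⟩).trans_eq
    (int_rev (fun r => ENNReal.ofReal (Real.exp (f (P r)))) L)

/-- induction along a path -/
theorem induct (hL : 0 ≤ L) (hP : ContinuousOn P (Icc 0 L)) {Φ : ℝ → Prop} (h0 : Φ 0)
    (h : ∀ τ ∈ Icc 0 L, ∃ N ∈ 𝓝 (P τ), ∀ s t, 0 ≤ s → s ≤ t → t ≤ L →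
      P s ∈ N → P t ∈ N → Φ s → Φ t) : Φ L := by
  set A := {t | t ∈ Icc 0 L ∧ Φ t}
  have hA : A.Nonempty := ⟨0, ⟨le_rfl, hL⟩, h0⟩
  have hb : BddAbove A := ⟨L, fun t ht => ht.1.2⟩
  have hτ : sSup A ∈ Icc 0 L := ⟨le_csSup hb ⟨⟨le_rfl, hL⟩, h0⟩, csSup_le hA fun t ht => ht.1.2⟩
  obtain ⟨N, hN, hst⟩ := h _ hτ
  obtain ⟨δ, hδ, hball⟩ := Metric.mem_nhdsWithin_iff.1 (hP _ hτ hN)
  obtain ⟨s, hs, hs'⟩ := exists_lt_of_lt_csSup hA (show sSup A - δ < sSup A by linarith)
  have hsτ := le_csSup hb hs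
  have ht : min L (sSup A + δ / 2) ∈ Icc 0 L :=
    ⟨le_min hL (by linarith [hτ.1]), min_le_left _ _⟩
  have hτt : sSup A ≤ min L (sSup A + δ / 2) := le_min hτ.2 (by linarith)
  have hΦ := hst s _ hs.1.1 (hsτ.trans hτt) ht.2
    (hball ⟨by rw [Metric.mem_ball, Real.dist_eq, abs_lt]; constructor <;> linarith, hs.1⟩)
    (hball ⟨by
      rw [Metric.mem_ball, Real.dist_eq, abs_lt]
      constructor <;> linarith [min_le_right L (sSup A + δ / 2)], ht⟩) hs.2
  have h1 := le_csSup hb ⟨ht, hΦ⟩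
  rcases min_le_iff.1 h1 with h2 | h2
  · rwa [min_eq_left (by linarith)] at hΦ
  · linarith

omit [MetricSpace E] in
/-- one more step of a partition; `d` is arbitrary -/
theorem len_step (d : E → E → ℝ) (γ : ℝ → E) {s t : ℝ} (hs : 0 ≤ s) (hst : s ≤ t) :
    len d γ (Icc 0 s) + ENNReal.ofReal (d (γ t) (γ s)) ≤ len d γ (Icc 0 t) := by
  have : Nonempty (ℕ × {u : ℕ → ℝ // Monotone u ∧ ∀ i, u i ∈ Icc 0 s}) :=
    ⟨0, fun _ => 0, monotone_const, fun _ => ⟨le_rfl, hs⟩⟩
  rw [len, ENNReal.iSup_add]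
  refine iSup_le fun ⟨n, u, hu, us⟩ => ?_
  set w : ℕ → ℝ := fun i => if i ≤ n then u i else if i = n + 1 then s else t with hw
  have w1 : ∀ i ≤ n, w i = u i := fun i hi => if_pos hi
  have w2 : w (n + 1) = s := by simp [hw]
  have w3 : ∀ i, n + 2 ≤ i → w i = t := fun i hi => by
    simp only [hw, if_neg (show ¬i ≤ n by omega), if_neg (show i ≠ n + 1 by omega)]
  have wm : Monotone w := monotone_nat_of_le_succ fun i => by
    rcases lt_trichotomy i n with hi | rfl | hi
    · rw [w1 i hi.le, w1 _ hi]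
      exact hu i.le_succ
    · rw [w1 i le_rfl, w2]
      exact (us i).2
    · rw [w3 (i + 1) (by omega)]
      rcases eq_or_lt_of_le (Nat.succ_le_of_lt hi) with h1 | h1
      · rw [← h1, w2]
        exact hst
      · exact (w3 i h1).le
  have ws : ∀ i, w i ∈ Icc 0 t := fun i =>
    ⟨(us 0).1.trans ((w1 0 n.zero_le).ge.trans (wm i.zero_le)),
      (wm (Nat.le_add_left i (n + 2))).trans (w3 _ (Nat.le_add_right _ _)).le⟩
  refine le_iSup_of_le ⟨n + 2, w, wm, ws⟩ ?_
  simp only [Finset.sum_range_succ]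
  rw [w2, w3 _ le_rfl]
  refine add_le_add (le_add_right (Finset.sum_congr rfl fun i hi => ?_).le) le_rfl
  rw [w1 i (Finset.mem_range.1 hi).le, w1 _ (Finset.mem_range.1 hi)]

end WeylAux

open WeylAux

theorem wmetOn_anti (hUV : U ⊆ V) (x y : E) : wmetOn f D V x y ≤ wmetOn f D U x y :=
  le_iInf₂ fun _ _ => le_iInf₂ fun u hm => wmetOn_le_path u (hm.mono_right hUV)

theorem wmetOn_self (h : IsMet D) {x : E} (hx : x ∈ U) : wmetOn f D U x x = 0 :=
  le_antisymm ((wmetOn_le_path (UP_refl x h) fun _ _ => hx).trans_eq (by simp)) zero_le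

theorem wmetOn_symm (h : IsMet D) (x y : E) : wmetOn f D U x y = wmetOn f D U y x :=
  le_antisymm (symm_le h y x) (symm_le h x y)

theorem wmetOn_triangle (h : IsMet D) (x y z : E) :
    wmetOn f D U x z ≤ wmetOn f D U x y + wmetOn f D U y z := by
  rw [wmetOn.eq_1 f D U x y, wmetOn.eq_1 f D U y z]
  simp only [ENNReal.iInf_add, ENNReal.add_iInf]
  refine le_iInf₂ fun L' Q => le_iInf₂ fun v hv => le_iInf₂ fun L P => le_iInf₂ fun u hu => ?_
  obtain ⟨R, r, e1, e2⟩ := append h u v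
  have hL : L ≤ L + L' := le_add_of_nonneg_right v.nonneg
  refine (wmetOn_le_path r fun t ht => ?_).trans_eq ?_
  · rcases le_total t L with h1 | h1
    · rw [e1 ⟨ht.1, h1⟩]
      exact hu ⟨ht.1, h1⟩
    · rw [e2 ⟨h1, ht.2⟩]
      exact hv ⟨by linarith, by linarith [ht.2]⟩
  · rw [← int_add _ u.nonneg hL, ← int_shift _ L (L + L'), add_sub_cancel_left]
    congr 1
    · exact setLIntegral_congr_fun measurableSet_Icc fun t ht => by simp only [e1 ht]
    · refine setLIntegral_congr_fun measurableSet_Icc fun t ht => ?_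
      have := e2 (x := L + t) ⟨by linarith [ht.1], by linarith [ht.2]⟩
      simp only [this, add_sub_cancel_left]

theorem wmetOn_iUnion {W : ℕ → Set E} (ho : ∀ k, IsOpen (W k)) (hm : Monotone W) (x y : E) :
    wmetOn f D (⋃ k, W k) x y = ⨅ k, wmetOn f D (W k) x y := by
  refine le_antisymm (le_iInf fun k => wmetOn_anti (subset_iUnion W k) x y)
    (le_iInf₂ fun L P => le_iInf₂ fun u hP => ?_)
  obtain ⟨k, hk⟩ := (isCompact_Icc.image_of_continuousOn u.cont).elim_directed_cover W ho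
    hP.image_subset hm.directed_le
  exact iInf_le_of_le k (wmetOn_le_path u (mapsTo_iff_image_subset.2 hk))

/-- near a point of `U` the Weyl scaling inside `U` is at most `d` -/
theorem WeylAux.near (h : IsMet D) (hO : IsOpen O)
    (e : ∀ x ∈ O, ∀ y ∈ O, ENNReal.ofReal (d x y) = wmetOn f D O x y)
    (cont : ContinuousOn (fun p : E × E => d p.1 p.2) (O ×ˢ O))
    (topo : ∀ x ∈ O, ∀ ε > 0, ∃ δ > 0, ∀ y ∈ O, d x y < δ → dist x y < ε)
    (hU : IsOpen U) (hUO : U ⊆ O) {p : E} (hp : p ∈ U) :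
    ∃ N ∈ 𝓝 p, ∀ a ∈ N, ∀ b ∈ N, wmetOn f D U a b ≤ ENNReal.ofReal (d a b) := by
  obtain ⟨ε, hε, hb⟩ := Metric.isOpen_iff.1 hU p hp
  have pO := hUO hp
  obtain ⟨δ, hδ, hd⟩ := topo p pO ε hε
  have d0 : d p p ≤ 0 := ENNReal.ofReal_eq_zero.1 ((e p pO p pO).trans (wmetOn_self h pO))
  have hc : ContinuousAt (fun a => d p a) p :=
    (cont.continuousAt ((hO.prod hO).mem_nhds (show (p, p) ∈ O ×ˢ O from ⟨pO, pO⟩))).comp
      (f := fun a => (p, a)) (by fun_prop)
  refine ⟨O ∩ {a | d p a < δ / 4}, Filter.inter_mem (hO.mem_nhds pO)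
    (hc.eventually_lt_const (by linarith)), fun a ha b hb' => ?_⟩
  have k : ∀ a ∈ O ∩ {a | d p a < δ / 4}, wmetOn f D O p a ≤ ENNReal.ofReal (δ / 4) :=
    fun a ha => (e p pO a ha.1).ge.trans (ENNReal.ofReal_le_ofReal (le_of_lt ha.2))
  have h1 : wmetOn f D O a b < ENNReal.ofReal (3 * δ / 4) := by
    refine (wmetOn_triangle h a p b).trans_lt ?_
    rw [wmetOn_symm h a p]
    refine (add_le_add (k a ha) (k b hb')).trans_lt ?_
    rw [← ENNReal.ofReal_add (by linarith) (by linarith)]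
    exact (ENNReal.ofReal_lt_ofReal_iff (by linarith)).2 (by linarith)
  rw [e a ha.1 b hb'.1]
  refine le_of_forall_gt_imp_ge_of_dense fun c hc => ?_
  have h2 := lt_min hc h1
  simp only [wmetOn.eq_1 f D O a b, iInf_lt_iff] at h2
  obtain ⟨L, P, u, hm, hI⟩ := h2
  refine (wmetOn_le_path u fun t ht => ?_).trans (hI.le.trans (min_le_left _ _))
  refine hb (Metric.mem_ball'.2 (hd _ (hm ht) ?_))
  have h3 := le_piece (f := f) h u hm le_rfl ht.1 ht.2
  rw [u.src] at h3
  have h4 := (h3.trans (lintegral_mono_set (Icc_subset_Icc_right ht.2))).trans_lt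
    (hI.trans_le (min_le_right _ _))
  have h5 := ((e p pO _ (hm ht)).le.trans (wmetOn_triangle h p a (P t))).trans_lt
    (ENNReal.add_lt_add_of_le_of_lt ((k a ha).trans_lt ENNReal.ofReal_lt_top).ne (k a ha) h4)
  rw [← ENNReal.ofReal_add (by linarith) (by linarith),
    ENNReal.ofReal_lt_ofReal_iff (by linarith)] at h5
  linarith

/-- if `d` is the Weyl scaling inside `O` and induces the topology, its internal metric in every
open `U ⊆ O` is the Weyl scaling inside `U` -/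
theorem DU_eq_wmetOn (h : IsMet D) (hO : IsOpen O)
    (e : ∀ x ∈ O, ∀ y ∈ O, ENNReal.ofReal (d x y) = wmetOn f D O x y)
    (cont : ContinuousOn (fun p : E × E => d p.1 p.2) (O ×ˢ O))
    (topo : ∀ x ∈ O, ∀ ε > 0, ∃ δ > 0, ∀ y ∈ O, d x y < δ → dist x y < ε)
    (hU : IsOpen U) (hUO : U ⊆ O) {x y : E} (hx : x ∈ U) (hy : y ∈ U) :
    DU d U x y = wmetOn f D U x y := by
  refine le_antisymm (le_iInf₂ fun L P => le_iInf₂ fun u hm => ?_) (le_iInf₂ fun γ p => ?_)
  · refine iInf₂_le_of_le _ (u.isPath hm) (iSup_le fun ⟨n, w, hw, ws⟩ => ?_)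
    have hL := u.nonneg
    have m : ∀ i, L * w i ∈ Icc 0 L := fun i =>
      ⟨mul_nonneg hL (ws i).1, mul_le_of_le_one_right hL (ws i).2⟩
    have mono : ∀ i j, i ≤ j → L * w i ≤ L * w j := fun i j hij =>
      mul_le_mul_of_nonneg_left (hw hij) hL
    have key : ∀ k, ∑ i ∈ Finset.range k,
        ENNReal.ofReal (d (P (L * w (i + 1))) (P (L * w i))) ≤
        ∫⁻ r in Icc (L * w 0) (L * w k), ENNReal.ofReal (Real.exp (f (P r))) := by
      intro k
      induction k with
      | zero => simp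
      | succ k ih =>
        rw [Finset.sum_range_succ, ← int_add _ (mono 0 k k.zero_le) (mono k _ k.le_succ),
          e _ (hUO (hm (m _))) _ (hUO (hm (m _))), wmetOn_symm h]
        exact add_le_add ih (le_piece h u (hm.mono_right hUO) (m _).1 (mono k _ k.le_succ) (m _).2)
    exact (key n).trans (lintegral_mono_set (Icc_subset_Icc (m _).1 (m _).2))
  · rw [← p.tgt]
    refine induct (Φ := fun t => wmetOn f D U x (γ t) ≤ len d γ (Icc 0 t)) zero_le_one p.cont
      (by rw [p.src, wmetOn_self h hx]; exact zero_le) fun τ hτ => ?_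
    obtain ⟨N, hN, hn⟩ := WeylAux.near h hO e cont topo hU hUO (p.maps hτ)
    refine ⟨N, hN, fun s t hs hst _ sN tN hΦ => ?_⟩
    refine (wmetOn_triangle h x (γ s) (γ t)).trans (le_trans ?_ (len_step d γ hs hst))
    rw [wmetOn_symm h (γ s)]
    exact add_le_add hΦ (hn _ tN _ sN)

theorem IsWeyl.isWeylOn_open (w : IsWeyl f D D') (h : IsMet D) (h' : IsMet D') (hU : IsOpen U) :
    IsWeylOn f D D' U := fun _ hx _ hy =>
  DU_eq_wmetOn h isOpen_univ (fun x _ y _ => (w x y).trans (wmet_eq _ _ x y)) h'.cont.continuousOn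
    (fun x _ ε hε => (h'.topo x ε hε).imp fun _ a => ⟨a.1, fun y _ => a.2 y⟩) hU (subset_univ _)
    hx hy

end LQ.Met
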