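import Pool.Agent.Lib.MP_0d9445_pr.Fx.Defs
import Pool.Agent.Lib.MP_0d9445_pr.Fx.Weyl
import Pool.Agent.Lib.MP_0d9445_pr.Bd.Cd
import Pool.Agent.Lib.MP_0d9445_pr.Su.Pair

/-! The surface is a function of the free field, the same before and after a shift. -/

open MeasureTheory ProbabilityTheory Set Filter Topology Real LQ.Met
open scoped NNReal ENNReal

noncomputable section

namespace Pool.Agent.Lib.MP_0d9445_pr.Fx

variable {M : Model} {Ω : Type} [MeasurableSpace Ω] {P₀ : Measure Ω} {h φ : Ω → Field}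
  {g : Ω → ℂ → ℝ} {s : ℂ → ℝ} {c : Field → ℝ} {u : Fn}

namespace UnivAux

open CR EN

/-- the clamp onto the half-plane above `sc k / 2` -/
def cl (k : ℕ) (z : ℂ) : ℂ := z + ((max (sc k / 2 - z.im) 0 : ℝ) : ℂ) * Complex.I

theorem continuous_cl (k : ℕ) : Continuous (cl k) := by
  unfold cl
  fun_prop

theorem cl_mem (k : ℕ) (z : ℂ) : cl k z ∈ UH := by
  have : (cl k z).im = z.im + max (sc k / 2 - z.im) 0 := by simp [cl]
  change 0 < (cl k z).im
  rw [this]
  linarith [le_max_left (sc k / 2 - z.im) 0, CR.sc_pos k]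

theorem cl_eq {k : ℕ} {z : ℂ} (hz : z ∈ Bd.above k) : cl k z = z := by
  have h1 : sc k < z.im := hz
  have h2 : sc k / 2 - z.im ≤ 0 := by linarith [CR.sc_pos k]
  simp [cl, max_eq_right h2]

theorem above_mono {k l : ℕ} (hkl : k ≤ l) : Bd.above k ⊆ Bd.above l := fun z hz => by
  have h1 : sc l ≤ sc k := pow_le_pow_of_le_one (by norm_num) (by norm_num) hkl
  exact h1.trans_lt hz

theorem exists_above {z : ℂ} (hz : z ∈ UH) : ∃ k, z ∈ Bd.above k :=
  exists_pow_lt_of_lt_one (show 0 < z.im from hz) (by norm_num)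

theorem iUnion_above (k₀ : ℕ) : ⋃ k, Bd.above (k + k₀) = UH := by
  refine Subset.antisymm (iUnion_subset fun k => Bd.above_subset _) fun z hz => ?_
  obtain ⟨k, hk⟩ := exists_above hz
  exact mem_iUnion.2 ⟨k, above_mono (Nat.le_add_right _ _) hk⟩

/-- a function on the half-plane, continued below `sc k / 2` -/
def ext (k : ℕ) (f : ℂ → ℝ) (hf : ContinuousOn f UH) : Fn :=
  ⟨fun z => f (cl k z), hf.comp_continuous (continuous_cl k) (cl_mem k)⟩

theorem ext_eq {k : ℕ} {f : ℂ → ℝ} (hf : ContinuousOn f UH) {z : ℂ} (hz : z ∈ Bd.above k) :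
    ext k f hf z = f z := congrArg f (cl_eq hz)

theorem lt_im {k : ℕ} {p : ℝ × ℂ} (hp : Metric.closedBall p.2 (exp (-p.1)) ⊆ Bd.above k) :
    exp (-p.1) < p.2.im := by
  have : sc k < _ := hp (a := p.2 - (exp (-p.1) : ℝ) * Complex.I) (by
    simp [abs_of_pos (exp_pos _), -Complex.ofReal_exp])
  simp only [Complex.sub_im, Complex.mul_im, Complex.ofReal_re, Complex.I_im, mul_one,
    Complex.ofReal_im, Complex.I_re, mul_zero, add_zero] at this
  linarith [CR.sc_pos k]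

theorem fun_congr {U : Set ℂ} {H H' : Field}
    (e : ∀ p : ℝ × ℂ, Metric.closedBall p.2 (exp (-p.1)) ⊆ U → H p = H' p) {F : Field → ℝ≥0∞}
    (hF : Measurable[sigmaOn id U] F) : F H = F H' :=
  (mem_iff_of_agree e (hF (measurableSet_singleton (F H')))).2 rfl

/-- local functions of the configuration are functions of the free field -/
theorem core (M : Model) (hp : IsFreePair P₀ h φ g) (hs : ContinuousOn s UH) (hc : Measurable c)
    (inv : ∀ᵐ ω ∂P₀, c (addFn (φ ω) u) = c (φ ω)) (k : ℕ) {Θ : Cf → ℝ≥0∞}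
    (hΘ : Measurable[GG (Bd.above k)] Θ) :
    ∃ (G : Ω → Fn) (Ψ : Field → ℝ≥0∞), Measurable G ∧ Measurable Ψ ∧
      (∀ ω, ∀ z ∈ Bd.above k, G ω z = g ω z + (s z - c (φ ω))) ∧
      (∀ᵐ ω ∂P₀, Θ (M.conf (addFn (h ω) (G ω))) = Ψ (φ ω)) ∧
      ∀ᵐ ω ∂P₀, Θ (M.conf (addFn (h ω) (G ω + u))) = Ψ (addFn (φ ω) u) := by
  let S : Field → Fn := fun H => ext k s hs - cst (c H)
  have hS : Measurable S := measurable_const.sub (Su.measurable_cst.comp hc)
  let E : Ω → Fn := fun ω => ext k (g ω) (hp.cont ω)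
  have hE : Measurable E := CM.measurable_cm_iff.2 fun z => hp.meas _
  have hG : Measurable fun ω => E ω + S (φ ω) := hE.add (hS.comp hp.free.meas)
  obtain ⟨f', hf', e1, e2⟩ := M.exists_fieldFun₂ (hp.gff.plus.add hG)
    (hp.gff.plus.add (hG.add_const u)) hΘ
  have hf : Measurable f' := hf'.mono (Mu.sigmaOn_le measurable_id _) le_rfl
  have ag : ∀ᵐ ω ∂P₀, ∀ (F : Fn) (p : ℝ × ℂ), Metric.closedBall p.2 (exp (-p.1)) ⊆ Bd.above k →
      addFn (h ω) (E ω + F) p = addFn (φ ω) F p := by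
    filter_upwards [hp.eq] with ω hω F p hpV
    have h2 : avg (E ω) p = avg (g ω) p :=
      Su.avg_congr (V := Bd.above k) (fun z hz => ext_eq (hp.cont ω) hz) hpV
    rw [← Mu.addFn_addFn, Mu.addFn_apply, Mu.addFn_apply, Mu.addFn_apply, hω p (lt_im hpV), h2]
  refine ⟨fun ω => E ω + S (φ ω), fun H => f' (addFn H (S H)), hG,
    hf.comp (Su.measurable_addFn measurable_id hS), fun ω z hz => ?_, ?_, ?_⟩
  · change ext k (g ω) (hp.cont ω) z + (ext k s hs z - c (φ ω)) = _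
    rw [ext_eq _ hz, ext_eq _ hz]
  · filter_upwards [e1, ag] with ω a b
    rw [a]
    exact fun_congr (b _) hf'
  · filter_upwards [e2, ag, inv] with ω a b d
    have e : S (addFn (φ ω) u) = S (φ ω) := by simp only [S, d]
    rw [a, e, Mu.addFn_addFn, add_assoc, add_comm u]
    exact fun_congr (b _) hf'

theorem cd_eq (M : Model) (H : IsGFF h P₀) {G : Ω → Fn} (hG : Measurable G) {f : Ω → ℂ → ℝ}
    {k : ℕ} (e : ∀ ω, ∀ z ∈ Bd.above k, G ω z = f ω z) {x y : ℂ} (hx : x ∈ Bd.above k)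
    (hy : y ∈ Bd.above k) : ∀ᵐ ω ∂P₀, Bd.cd (Bd.above k) (M.conf (addFn (h ω) (G ω))).1 x y =
      wmetOn (fun z => M.ξ * f ω z) (Function.curry (M.D (h ω))) (Bd.above k) x y := by
  filter_upwards [M.ae_good H.plus, M.ae_good (H.plus.add hG), M.ae_weyl H.plus hG]
    with ω a b d
  rw [Bd.cd_eq_DU b.1 b.2 (Bd.isOpen_above k) hx]
  refine (d.1.isWeylOn_open a.1 b.1 (Bd.isOpen_above k) x hx y hy).trans ?_
  exact wmetOn_congr (fun z hz => by simp only [e ω z hz]) x y

theorem am_restrict (M : Model) (H : Field) (f : ℂ → ℝ) {V : Set ℂ} (hV : MeasurableSet V)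
    (hU : V ⊆ UH) : (am M H f).restrict V =
      ((M.μ H).restrict V).withDensity fun z => ENNReal.ofReal (exp (M.γ * f z)) := by
  rw [am, restrict_withDensity hV, Measure.restrict_restrict hV, inter_eq_left.2 hU]

theorem lint_eq (M : Model) (H : IsGFF h P₀) {G : Ω → Fn} (hG : Measurable G) {f : Ω → ℂ → ℝ}
    {k : ℕ} (e : ∀ ω, ∀ z ∈ Bd.above k, G ω z = f ω z) (F : ℂ → ℝ≥0∞) :
    ∀ᵐ ω ∂P₀, ∫⁻ z, F z ∂(M.conf (addFn (h ω) (G ω))).2.restrict (interior (Bd.above k)) =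
      ∫⁻ z in Bd.above k, F z ∂am M (h ω) (f ω) := by
  have hV := (Bd.isOpen_above k).measurableSet
  filter_upwards [M.ae_weyl H.plus hG] with ω d
  rw [(Bd.isOpen_above k).interior_eq, am_restrict M _ _ hV (Bd.above_subset k)]
  change ∫⁻ z, F z ∂(M.μ (addFn (h ω) (G ω))).restrict _ = _
  rw [d.2, restrict_withDensity hV]
  congr 1
  refine withDensity_congr_ae ((ae_restrict_mem hV).mono fun z hz => ?_)
  simp only [e ω z hz]

theorem lint_iSup (M : Model) (H : Field) (f : ℂ → ℝ) (F : ℂ → ℝ≥0∞) :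
    ∫⁻ z, F z ∂am M H f = ⨆ k, ∫⁻ z in Bd.above (k + 0), F z ∂am M H f := by
  have hU : MeasurableSet UH := (isOpen_lt continuous_const Complex.continuous_im).measurableSet
  rw [← setLIntegral_iUnion_of_directed F
    (Monotone.directed_le fun k l hkl => above_mono (Nat.add_le_add_right hkl 0)),
    iUnion_above, am_restrict M H f hU Subset.rfl, am]

theorem integral_eq_ite (m : Measure ℂ) {b : ℂ → ℝ} (hb : Measurable b) :
    ∫ z, b z ∂m = if ∫⁻ z, ‖b z‖ₑ ∂m < ∞ then (∫⁻ z, ENNReal.ofReal (b z) ∂m).toReal -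
      (∫⁻ z, ENNReal.ofReal (-b z) ∂m).toReal else 0 := by
  split_ifs with hi
  · exact integral_eq_lintegral_pos_part_sub_lintegral_neg_part ⟨hb.aestronglyMeasurable, hi⟩
  · exact integral_undef fun a => hi a.2

theorem measurable_cayley : Measurable cayley := by
  unfold cayley
  fun_prop

end UnivAux

open UnivAux

theorem univ_wm (hp : IsFreePair P₀ h φ g) (hs : ContinuousOn s UH) (hc : Measurable c)
    (inv : ∀ᵐ ω ∂P₀, c (addFn (φ ω) u) = c (φ ω)) {x y : ℂ} (hx : x ∈ UH) (hy : y ∈ UH) :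
    ∃ Ψ : Field → ℝ≥0∞, Measurable Ψ ∧
      (∀ᵐ ω ∂P₀, wm M (h ω) (fun z => g ω z + (s z - c (φ ω))) x y = Ψ (φ ω)) ∧
      ∀ᵐ ω ∂P₀, wm M (h ω) (fun z => g ω z + (s z - c (φ ω)) + u z) x y =
        Ψ (addFn (φ ω) u) := by
  obtain ⟨k₁, h1⟩ := exists_above hx
  obtain ⟨k₂, h2⟩ := exists_above hy
  have hx' : ∀ k, x ∈ Bd.above (k + (k₁ + k₂)) := fun k => above_mono (by omega) h1
  have hy' : ∀ k, y ∈ Bd.above (k + (k₁ + k₂)) := fun k => above_mono (by omega) h2
  have hΘ : ∀ V : Set ℂ, Measurable[GG V] fun c : Cf => Bd.cd V c.1 x y := fun V =>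
    @Bd.measurable_cd_comp V Cf (GG V) id measurable_id (fun _ => x) (fun _ => y)
      measurable_const measurable_const
  choose G Ψ hG hΨ e a b using fun k => core M hp hs hc inv (k + (k₁ + k₂)) (hΘ _)
  have key : ∀ (H : Field) (f : ℂ → ℝ), wm M H f x y = ⨅ k, wmetOn (fun z => M.ξ * f z)
      (Function.curry (M.D H)) (Bd.above (k + (k₁ + k₂))) x y := fun H f => by
    rw [wm, ← iUnion_above (k₁ + k₂)]
    exact wmetOn_iUnion (fun k => Bd.isOpen_above _)
      (fun k l hkl => above_mono (Nat.add_le_add_right hkl _)) x y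
  refine ⟨fun H => ⨅ k, Ψ k H, Measurable.iInf hΨ, ?_, ?_⟩
  · filter_upwards [ae_all_iff.2 a, ae_all_iff.2 fun k => cd_eq M hp.gff (hG k)
      (f := fun ω z => g ω z + (s z - c (φ ω))) (e k) (hx' k) (hy' k)] with ω a d
    rw [key]
    exact iInf_congr fun k => (d k).symm.trans (a k)
  · filter_upwards [ae_all_iff.2 b, ae_all_iff.2 fun k => cd_eq M hp.gff ((hG k).add_const u)
      (f := fun ω z => g ω z + (s z - c (φ ω)) + u z)
      (fun ω z hz => by rw [ContinuousMap.add_apply, e k ω z hz]) (hx' k) (hy' k)] with ω a d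
    rw [key]
    exact iInf_congr fun k => (d k).symm.trans (a k)

theorem univ_am (hp : IsFreePair P₀ h φ g) (hs : ContinuousOn s UH) (hc : Measurable c)
    (inv : ∀ᵐ ω ∂P₀, c (addFn (φ ω) u) = c (φ ω)) {F : ℂ → ℝ≥0∞} (hF : Measurable F) :
    ∃ Ψ : Field → ℝ≥0∞, Measurable Ψ ∧
      (∀ᵐ ω ∂P₀, ∫⁻ z, F z ∂am M (h ω) (fun z => g ω z + (s z - c (φ ω))) = Ψ (φ ω)) ∧
      ∀ᵐ ω ∂P₀, ∫⁻ z, F z ∂am M (h ω) (fun z => g ω z + (s z - c (φ ω)) + u z) =
        Ψ (addFn (φ ω) u) := by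
  have hΘ : ∀ V : Set ℂ, Measurable[GG V] fun c : Cf => ∫⁻ z, F z ∂c.2.restrict (interior V) :=
    fun V => (Measure.measurable_lintegral hF).comp (EN.measurable_restrict_GG V)
  choose G Ψ hG hΨ e a b using fun k => core M hp hs hc inv (k + 0) (hΘ _)
  refine ⟨fun H => ⨆ k, Ψ k H, Measurable.iSup hΨ, ?_, ?_⟩
  · filter_upwards [ae_all_iff.2 a, ae_all_iff.2 fun k => lint_eq M hp.gff (hG k)
      (f := fun ω z => g ω z + (s z - c (φ ω))) (e k) F] with ω a d
    rw [lint_iSup]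
    exact iSup_congr fun k => (d k).symm.trans (a k)
  · filter_upwards [ae_all_iff.2 b, ae_all_iff.2 fun k => lint_eq M hp.gff ((hG k).add_const u)
      (f := fun ω z => g ω z + (s z - c (φ ω)) + u z)
      (fun ω z hz => by rw [ContinuousMap.add_apply, e k ω z hz]) F] with ω a d
    rw [lint_iSup]
    exact iSup_congr fun k => (d k).symm.trans (a k)

/-- the same for all coordinates at once -/
theorem univ_cz (hp : IsFreePair P₀ h φ g) (hs : ContinuousOn s UH) (hc : Measurable c)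
    (inv : ∀ᵐ ω ∂P₀, c (addFn (φ ω) u) = c (φ ω)) {x : ℕ → ℂ × ℂ} (hx : ∀ i, x i ∈ UH ×ˢ UH)
    (β : ℕ → BoundedContinuousFunction ℂ ℝ) :
    ∃ Ψ : Field → (ℕ → ℝ) × (ℕ → ℝ), Measurable Ψ ∧
      (∀ᵐ ω ∂P₀, cz M x β (h ω) (fun z => g ω z + (s z - c (φ ω))) = Ψ (φ ω)) ∧
      ∀ᵐ ω ∂P₀, cz M x β (h ω) (fun z => g ω z + (s z - c (φ ω)) + u z) =
        Ψ (addFn (φ ω) u) := by
  have hβ : ∀ i, Measurable (β i) := fun i => (β i).continuous.measurable
  choose W hW w1 w2 using fun i => univ_wm (M := M) hp hs hc inv (hx i).1 (hx i).2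
  choose A hA a1 a2 using fun i => univ_am (M := M) hp hs hc inv
    (F := fun z => ‖β i (cayley z)‖ₑ) ((hβ i).comp measurable_cayley).enorm
  choose B hB b1 b2 using fun i => univ_am (M := M) hp hs hc inv
    (F := fun z => ENNReal.ofReal (β i (cayley z))) ((hβ i).comp measurable_cayley).ennreal_ofReal
  choose C hC c1 c2 using fun i => univ_am (M := M) hp hs hc inv
    (F := fun z => ENNReal.ofReal (-β i (cayley z)))
    ((hβ i).comp measurable_cayley).neg.ennreal_ofReal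
  have key : ∀ (m : Measure ℂ) (i : ℕ), ∫ z, β i z ∂m.map cayley =
      if ∫⁻ z, ‖β i (cayley z)‖ₑ ∂m < ∞ then (∫⁻ z, ENNReal.ofReal (β i (cayley z)) ∂m).toReal -
        (∫⁻ z, ENNReal.ofReal (-β i (cayley z)) ∂m).toReal else 0 := fun m i => by
    rw [integral_map measurable_cayley.aemeasurable (hβ i).aestronglyMeasurable]
    exact integral_eq_ite m ((hβ i).comp measurable_cayley)
  refine ⟨fun H => (fun i => (W i H).toReal,
    fun i => if A i H < ∞ then (B i H).toReal - (C i H).toReal else 0),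
    (measurable_pi_lambda _ fun i => (hW i).ennreal_toReal).prodMk
      (measurable_pi_lambda _ fun i => Measurable.ite (measurableSet_lt (hA i) measurable_const)
        ((hB i).ennreal_toReal.sub (hC i).ennreal_toReal) measurable_const), ?_, ?_⟩
  · filter_upwards [ae_all_iff.2 w1, ae_all_iff.2 a1, ae_all_iff.2 b1, ae_all_iff.2 c1]
      with ω w a b d
    refine Prod.ext (funext fun i => congrArg ENNReal.toReal (w i)) (funext fun i => ?_)
    refine (key _ i).trans ?_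
    rw [a i, b i, d i]
  · filter_upwards [ae_all_iff.2 w2, ae_all_iff.2 a2, ae_all_iff.2 b2, ae_all_iff.2 c2]
      with ω w a b d
    refine Prod.ext (funext fun i => congrArg ENNReal.toReal (w i)) (funext fun i => ?_)
    refine (key _ i).trans ?_
    rw [a i, b i, d i]

end Pool.Agent.Lib.MP_0d9445_pr.Fx
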