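import Pool.Agent.Lib.MP_0d9445_pr.Fx.Couple
import Pool.Agent.Lib.MP_0d9445_pr.Fx.Dir
import Pool.Agent.Lib.MP_0d9445_pr.Fx.Univ
import Pool.Agent.Lib.MP_0d9445_pr.Fx.Det
import Pool.Agent.Lib.MP_0d9445_pr.Bd.Pull

/-! The line of shifts of the free disk. -/

open MeasureTheory ProbabilityTheory Set Filter Topology Real LQ.Met
open scoped NNReal ENNReal

noncomputable section

namespace Pool.Agent.Lib.MP_0d9445_pr.Fx

open Bd

variable {M : Model} {Ω : Type} [MeasurableSpace Ω] {P P₀ : Measure Ω} {h φ : Ω → Field}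
  {g f : Ω → ℂ → ℝ} {s : ℂ → ℝ} {c : Field → ℝ} {w : Field → ℝ≥0∞} {z₀ : ℂ} {ψ : Fn}
  {d : Ω → Met} {m : Ω → Measure ℂ} {x : ℕ → ℂ × ℂ} {β : ℕ → BoundedContinuousFunction ℂ ℝ}

theorem Data.ac (H : Data P P₀ h φ g f s c w) : P ≪ P₀ :=
  H.dens ▸ withDensity_absolutelyContinuous _ _

theorem UH_sub : UH ⊆ ({0, 1} : Set ℂ)ᶜ := disjoint_left.1 (by simp [UH])

theorem Data.contOn (H : Data P P₀ h φ g f s c w) (ω : Ω) : ContinuousOn (f ω) UH := by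
  rw [funext (H.eq ω)]
  exact (H.pair.cont ω).add ((H.cont.mono UH_sub).sub continuousOn_const)

theorem surf_wm (hS : IsSurfVia M.γ M.ξ M.D M.μ cayley (Metric.ball 0 1) P h f d m) :
    ∀ᵐ ω ∂P, ∀ a ∈ UH, ∀ b ∈ UH,
      ENNReal.ofReal (d ω (cayley a, cayley b)) = wm M (h ω) (f ω) a b :=
  (hS.length.and hS.weyl).mono fun _ k a ha b hb =>
    (k.1 a ha b hb).symm.trans (k.2 UH isOpen_UH subset_rfl a ha b hb)

theorem surf_coords (hS : IsSurfVia M.γ M.ξ M.D M.μ cayley (Metric.ball 0 1) P h f d m)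
    (hx : ∀ i, x i ∈ UH ×ˢ UH) (β : ℕ → BoundedContinuousFunction ℂ ℝ) : ∀ᵐ ω ∂P,
      coords (fun i => (cayley (x i).1, cayley (x i).2)) β (d ω) (m ω) = cz M x β (h ω) (f ω) := by
  filter_upwards [surf_wm hS, hS.metric, hS.area] with ω h1 h2 h3
  refine Prod.ext (funext fun i => ?_) (funext fun i => ?_)
  · change d ω _ = (wm M _ _ _ _).toReal
    rw [← h1 _ (hx i).1 _ (hx i).2, ENNReal.toReal_ofReal (MetOn.nonneg h2
      (chart_cayley.mem (subset_closure (hx i).1)).1 (chart_cayley.mem (subset_closure (hx i).2)).1)]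
  · change ∫ z, β i z ∂m ω = _
    rw [h3]
    rfl

theorem surf_fin (hS : IsSurfVia M.γ M.ξ M.D M.μ cayley (Metric.ball 0 1) P h f d m)
    (hfin : ∀ᵐ ω ∂P, m ω univ ≠ ∞) : ∀ᵐ ω ∂P, am M (h ω) (f ω) univ ≠ ∞ := by
  filter_upwards [hS.area, hfin] with ω h1 h2
  rwa [h1, Measure.map_apply chart_cayley.meas MeasurableSet.univ] at h2

theorem line_ac (H : Data P P₀ h φ g f s c w)
    (hS : IsSurfVia M.γ M.ξ M.D M.μ cayley (Metric.ball 0 1) P h f d m)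
    (hfin : ∀ᵐ ω ∂P, m ω univ ≠ ∞) (hψ : Dir z₀ ψ) (hx : ∀ i, x i ∈ UH ×ˢ UH) (h0 : β 0 = 1)
    (h1 : ∀ y, 0 ≤ β 1 y ∧ β 1 y ≤ 1)
    (h2 : ∀ z ∈ UH, z ∉ Metric.ball z₀ (1 / 16) → β 1 (cayley z) = 0)
    {lam : Measure ((ℕ → ℝ) × (ℕ → ℝ))} [IsProbabilityMeasure lam] {a : ℝ}
    {e : ℕ → ℝ} (he : Tendsto e atTop (𝓝[>] 0))
    (lim : ∀ F : BoundedContinuousFunction ((ℕ → ℝ) × (ℕ → ℝ)) ℝ, Tendsto (fun n : ℕ =>
      ∫ ω, F (coords (fun i => (cayley (x i).1, cayley (x i).2)) β (d ω) (m ω))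
        ∂cond P {ω | |(m ω).real univ - a| < e n}) atTop (𝓝 (∫ e, F e ∂lam)))
    (pos : ∀ᵐ e ∂lam, 0 < e.2 1) :
    ∃ (τ : Ω → ℝ) (Z : Ω → (ℕ → ℝ) × (ℕ → ℝ)), (∀ ω, τ ω ∈ Icc (-1 : ℝ) 1) ∧ Measurable Z ∧
      (∀ᵐ ω ∂P, Z ω = cz M x β (h ω) fun z => f ω z + τ ω * ψ z) ∧ lam ≪ P.map Z := by
  have := H.prob
  have hγ := M.γ_pos
  obtain ⟨r, R, mr, mR, r0, Rf, hT⟩ := H.tilt hψ
  set Z : ℝ → Ω → (ℕ → ℝ) × (ℕ → ℝ) := fun t ω => cz M x β (h ω) fun z => f ω z + t * ψ z with hZ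
  have e0 : ∀ ω, Z 0 ω = cz M x β (h ω) (f ω) := fun ω => by simp only [hZ, zero_mul, add_zero]
  have hU : ∀ t, ∃ Ψ : Field → (ℕ → ℝ) × (ℕ → ℝ), Measurable Ψ ∧ (∀ᵐ ω ∂P, Z 0 ω = Ψ (φ ω)) ∧
      ∀ᵐ ω ∂P, Z t ω = Ψ (addFn (φ ω) (t • ψ)) := fun t => by
    obtain ⟨Ψ, a1, a2, a3⟩ := univ_cz (M := M) H.pair (H.cont.mono UH_sub) H.mc
      ((H.inv _ _ hψ t).mono fun _ k => k.2) hx β
    refine ⟨Ψ, a1, (a2.filter_mono H.ac.ae_le).mono fun ω k => ?_,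
      (a3.filter_mono H.ac.ae_le).mono fun ω k => ?_⟩
    · rwa [e0, funext (H.eq ω)]
    · simp only [hZ, H.eq]
      exact k
  have hf := surf_fin hS hfin
  have L : Line P Z (fun e => e.2 0) (fun e => e.2 1) (M.γ * exp (-(2 * M.γ)) / 2)
      ((2 * M.γ + 1) * exp (2 * M.γ)) r R := by
    refine ⟨by fun_prop, by fun_prop, by positivity, by positivity,
      hf.mono fun ω k s t a1 a2 a3 => ?_, hf.mono fun ω k t ht => ?_, mr, mR, .of_forall r0, Rf,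
      fun t ht F hF => ?_, fun t ht F hF => ?_⟩
    · rw [e0]
      exact (and_assoc.2 (cz_mono hψ (H.contOn ω) k h0 h1 h2 a1 a2 a3)).1
    · rw [e0]
      exact (cz_mono hψ (H.contOn ω) k h0 h1 h2 ht.1 le_rfl ht.2).2.2
    · obtain ⟨Ψ, a1, a2, a3⟩ := hU t
      rw [lintegral_congr_ae (a2.mono fun ω k => congrArg F k),
        lintegral_congr_ae (a3.mono fun ω k => congrArg (fun e => F e * R ω) k)]
      exact (hT t ht _ (hF.comp a1)).1
    · obtain ⟨Ψ, a1, a2, a3⟩ := hU t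
      rw [lintegral_congr_ae (a2.mono fun ω k => congrArg F k),
        lintegral_congr_ae (a3.mono fun ω k => congrArg (fun e => F e * r ω) k)]
      exact (hT t ht _ (hF.comp a1)).2
  have ec := surf_coords hS hx β
  obtain ⟨τ, Z', -, a2, a3, a4, a5⟩ := L.ac' (lam := lam) (a := a)
    (S := fun ε => {ω | |(m ω).real univ - a| < ε}) (fun t => by
      obtain ⟨Ψ, a1, -, a3⟩ := hU t
      exact (a1.comp ((Su.measurable_shift _).comp H.pair.free.meas)).aemeasurable.congr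
        (a3.mono fun _ k => k.symm))
    (by
      filter_upwards [hf, surf_wm hS] with ω k1 k2
      exact cz_cont hψ (H.contOn ω) k1 fun i =>
        k2 _ (hx i).1 _ (hx i).2 ▸ ENNReal.ofReal_ne_top)
    (fun ε => by
      filter_upwards [ec] with ω k
      have : (Z 0 ω).2 0 = (m ω).real univ := by
        rw [e0, ← k]
        change ∫ z, β 0 z ∂m ω = _
        simp [h0]
      exact congrArg (fun y => |y - a| < ε) this.symm)
    he (fun F => (lim F).congr fun ε => integral_congr_ae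
      ((ec.filter_mono cond_absolutelyContinuous.ae_le).mono fun ω k => by simp only [e0, k])) pos
  exact ⟨τ, Z', a2, a3, a4, a5⟩

end Pool.Agent.Lib.MP_0d9445_pr.Fx
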