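import Pool.Agent.Lib.MP_0d9445_pr.Bd.Stmt

/-! The quantum disk with given boundary length and given area. -/

open MeasureTheory ProbabilityTheory Set Filter Topology Real
open scoped NNReal ENNReal

noncomputable section

namespace Pool.Agent.Lib.MP_0d9445_pr

/-- the distances between the pairs of points `x i` and the integrals of the functions `β i` -/
def coords (x : ℕ → ℂ × ℂ) (β : ℕ → BoundedContinuousFunction ℂ ℝ) (d : Met) (m : Measure ℂ) :
    (ℕ → ℝ) × (ℕ → ℝ) :=
  (fun i => d (x i), fun i => ∫ z, β i z ∂m)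

variable {Ω : Type} [MeasurableSpace Ω]

/-- `(d, m)` on the closed unit disc is the quantum disk of boundary length `ℓ` and area `a`: the
measure `m` has total mass `a` and full support, and the law of `(d, m)` is the limit, along a
sequence of positive numbers `ε n → 0`, of the law of the quantum disk `(d', m')` of boundary
length `ℓ` conditioned on `|area - a| < ε n`, jointly for every sequence of distances between
points of the disc and of integrals of bounded continuous functions. -/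
def IsDiskArea (γ ξ Q : ℝ) (D : Field → Met) (μ : Field → Measure ℂ) (ℓ a : ℝ) (P : Measure Ω)
    (d : Ω → Met) (m : Ω → Measure ℂ) : Prop :=
  Measurable d ∧ Measurable m ∧
  (∀ᵐ ω ∂P, m ω univ = ENNReal.ofReal a ∧
    ∀ U : Set ℂ, IsOpen U → U ⊆ Metric.ball 0 1 → U.Nonempty → m ω U ≠ 0) ∧
  ∃ (Ω' : Type) (_ : MeasurableSpace Ω') (_ : StandardBorelSpace Ω') (P' : Measure Ω')
    (h : Ω' → Field) (f : Ω' → ℂ → ℝ) (d' : Ω' → Met) (m' : Ω' → Measure ℂ),
    IsProbabilityMeasure P' ∧ IsDisk γ Q ℓ P' h f ∧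
    IsSurfVia γ ξ D μ cayley (Metric.ball 0 1) P' h f d' m' ∧
    ∃ ε : ℕ → ℝ, Tendsto ε atTop (𝓝[>] 0) ∧
      ∀ (x : ℕ → ℂ × ℂ) (β : ℕ → BoundedContinuousFunction ℂ ℝ)
        (F : BoundedContinuousFunction ((ℕ → ℝ) × (ℕ → ℝ)) ℝ),
        (∀ i, x i ∈ Metric.ball (0 : ℂ) 1 ×ˢ Metric.ball (0 : ℂ) 1) →
        Tendsto (fun n => ∫ ω, F (coords x β (d' ω) (m' ω))
            ∂cond P' {ω | |(m' ω).real univ - a| < ε n})
          atTop (𝓝 (∫ ω, F (coords x β (d ω) (m ω)) ∂P))

end Pool.Agent.Lib.MP_0d9445_pr
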