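import Pool.Agent.Lib.MP_0d9445_pr.Fx.Line
import Pool.Agent.Lib.MP_0d9445_pr.Fx.Ident
import Pool.Agent.Lib.MP_0d9445_pr.Bd.SurfOf

/-! The disk of given area as a surface on a larger probability space. -/

open MeasureTheory ProbabilityTheory Set Filter Topology Real LQ.Met
open scoped NNReal ENNReal

noncomputable section

namespace Pool.Agent.Lib.MP_0d9445_pr.Fx

open Bd CR

variable {M : Model} {Ω Ω' : Type} [MeasurableSpace Ω] [MeasurableSpace Ω'] {P : Measure Ω}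
  {P' P₀ : Measure Ω'} {h φ : Ω' → Field} {g f : Ω' → ℂ → ℝ} {s : ℂ → ℝ} {c : Field → ℝ}
  {w : Field → ℝ≥0∞} {z₀ : ℂ} {ψ : Fn} {d : Ω → Met} {m : Ω → Measure ℂ} {d' : Ω' → Met}
  {m' : Ω' → Measure ℂ} {a : ℝ}

theorem mp_fst [SFinite P] (κ : Kernel Ω Ω') [IsMarkovKernel κ] :
    MeasurePreserving Prod.fst (P ⊗ₘ κ) P :=
  ⟨measurable_fst, by rw [← Measure.fst, Measure.fst_compProd]⟩

theorem ae_snd {Q : Measure (Ω × Ω')} (ac : Q.map Prod.snd ≪ P') {p : Ω' → Prop}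
    (k : ∀ᵐ ω ∂P', p ω) : ∀ᵐ x ∂Q, p x.2 :=
  ae_of_ae_map measurable_snd.aemeasurable (k.filter_mono ac.ae_le)

theorem ae_of_fst [SFinite P] {κ : Kernel Ω Ω'} [IsMarkovKernel κ] {p : Ω → Prop}
    (k : ∀ᵐ x ∂P ⊗ₘ κ, p x.1) : ∀ᵐ ω ∂P, p ω :=
  (Measure.ae_ae_of_ae_compProd k).mono fun _ a => a.exists.choose_spec

/-- the hypotheses on the disk of area `a`, unpacked -/
structure Lim (P : Measure Ω) (P' : Measure Ω') (d : Ω → Met) (m : Ω → Measure ℂ) (d' : Ω' → Met)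
    (m' : Ω' → Measure ℂ) (a : ℝ) : Prop where
  md : Measurable d
  mm : Measurable m
  mass : ∀ᵐ ω ∂P, m ω univ = ENNReal.ofReal a ∧
    ∀ U : Set ℂ, IsOpen U → U ⊆ Metric.ball 0 1 → U.Nonempty → m ω U ≠ 0
  fin : ∀ᵐ ω ∂P', m' ω univ ≠ ∞
  lim : ∃ ε : ℕ → ℝ, Tendsto ε atTop (𝓝[>] 0) ∧
    ∀ (x : ℕ → ℂ × ℂ) (β : ℕ → BoundedContinuousFunction ℂ ℝ)
      (F : BoundedContinuousFunction ((ℕ → ℝ) × (ℕ → ℝ)) ℝ),
      (∀ i, x i ∈ Metric.ball (0 : ℂ) 1 ×ˢ Metric.ball (0 : ℂ) 1) →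
      Tendsto (fun n => ∫ ω, F (coords x β (d' ω) (m' ω))
          ∂cond P' {ω | |(m' ω).real univ - a| < ε n})
        atTop (𝓝 (∫ ω, F (coords x β (d ω) (m ω)) ∂P))

theorem area_couple [IsProbabilityMeasure P] [StandardBorelSpace Ω']
    (H : Data P' P₀ h φ g f s c w)
    (hS : IsSurfVia M.γ M.ξ M.D M.μ cayley (Metric.ball 0 1) P' h f d' m')
    (L : Lim P P' d m d' m' a) (hψ : Dir z₀ ψ) (hz : z₀ ∈ UH) :
    ∃ (κ : Kernel Ω Ω') (τ : Ω' → ℝ), IsMarkovKernel κ ∧ (∀ ω, τ ω ∈ Icc (-1 : ℝ) 1) ∧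
      (P ⊗ₘ κ).map Prod.snd ≪ P' ∧
      IsSurfVia M.γ M.ξ M.D M.μ cayley (Metric.ball 0 1) (P ⊗ₘ κ) (fun x => h x.2)
        (fun x z => f x.2 z + τ x.2 * ψ z) (fun x => d x.1) fun x => m x.1 := by
  have := H.prob
  obtain ⟨b, b1, b2, b3⟩ := exists_bump hz (r := 1 / 16) (by norm_num)
  obtain ⟨β, β0, β1, βs⟩ := exists_sep b
  obtain ⟨x, hx, hd⟩ := exists_dense
  set x' : ℕ → ℂ × ℂ := fun i => (cayley (x i).1, cayley (x i).2) with hx'
  have hZ : Measurable fun ω => coords x' β (d ω) (m ω) :=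
    (measurable_coords x' β).comp (L.md.prodMk L.mm)
  have := Measure.isProbabilityMeasure_map (μ := P) hZ.aemeasurable
  obtain ⟨ε, hε, lim⟩ := L.lim
  obtain ⟨τ, Z, t1, mZ, eZ, ac⟩ := line_ac (lam := P.map fun ω => coords x' β (d ω) (m ω)) (a := a)
    H hS L.fin hψ hx β0 (β1 ▸ b1) (β1 ▸ b2) hε (fun F => by
      rw [integral_map hZ.aemeasurable F.continuous.aestronglyMeasurable]
      exact lim x' β F fun i => ⟨(chart_cayley.mem_iff (subset_closure (hx i).1)).2 (hx i).1,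
        (chart_cayley.mem_iff (subset_closure (hx i).2)).2 (hx i).2⟩)
    ((ae_map_iff hZ.aemeasurable (measurableSet_lt measurable_const (by fun_prop))).2
      (L.mass.mono fun ω k => by
        change 0 < ∫ z, β 1 z ∂m ω
        exact β1 ▸ b3 _ (k.1 ▸ ENNReal.ofReal_ne_top) k.2))
  obtain ⟨κ, hκ, ac', e⟩ := exists_couple P P' hZ mZ ac
  have e' : ∀ᵐ y ∂P ⊗ₘ κ, coords x' β (d y.1) (m y.1) =
      cz M x β (h y.2) fun z => f y.2 z + τ y.2 * ψ z :=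
    (e.and (ae_snd ac' eZ)).mono fun y k => k.1.trans k.2
  have key : ∀ᵐ y ∂P ⊗ₘ κ, MetOn (closure (Metric.ball 0 1)) (d y.1) ∧
      (∀ a ∈ UH, ∀ b ∈ UH, DU (fun a b => d y.1 (cayley a, cayley b)) UH a b =
        ENNReal.ofReal (d y.1 (cayley a, cayley b))) ∧
      ∀ U : Set ℂ, IsOpen U → U ⊆ UH → ∀ a ∈ U, ∀ b ∈ U,
        DU (fun a b => d y.1 (cayley a, cayley b)) U a b = wmetOn
          (fun z => M.ξ * (f y.2 z + τ y.2 * ψ z)) (Function.curry (M.D (h y.2))) U a b := by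
    filter_upwards [e', ae_snd ac' hS.metric, ae_snd ac' (surf_wm hS),
      ae_snd ac' ((M.ae_good H.pair.gff.plus).filter_mono H.ac.ae_le)] with y k1 k2 k3 k4
    refine ident chart_cayley k4.1 (K := M.ξ * 2) (fun z _ => ?_) k2 k3 hx hd
      fun i => congrFun (congrArg Prod.fst k1) i
    rw [← mul_sub, add_sub_cancel_left, abs_mul, abs_of_pos M.ξ_pos, abs_mul,
      abs_of_nonneg (hψ.nonneg z)]
    exact mul_le_mul_of_nonneg_left ((mul_le_of_le_one_left (hψ.nonneg z)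
      (abs_le.2 (t1 y.2))).trans (hψ.le z)) M.ξ_pos.le
  refine ⟨κ, τ, hκ, t1, ac', L.md.comp measurable_fst, L.mm.comp measurable_fst,
    key.mono fun _ k => k.1, key.mono fun _ k => k.2.1, key.mono fun _ k => k.2.2, ?_⟩
  filter_upwards [e', ae_snd ac' (surf_fin hS L.fin),
    (mp_fst κ).quasiMeasurePreserving.ae L.mass] with y k1 k2 k3
  refine βs _ _ (k3.1 ▸ ENNReal.ofReal_ne_top) ?_ fun i => congrFun (congrArg Prod.snd k1) i
  rw [Measure.map_apply chart_cayley.meas MeasurableSet.univ]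
  exact ((am_le hψ (H.contOn y.2) (t1 y.2) univ).trans_lt
    (ENNReal.mul_lt_top ENNReal.ofReal_lt_top k2.lt_top)).ne

/-- the free disk itself on the larger space -/
theorem surf_snd {Q : Measure (Ω × Ω')} (ac : Q.map Prod.snd ≪ P')
    (hS : IsSurfVia M.γ M.ξ M.D M.μ cayley (Metric.ball 0 1) P' h f d' m') :
    IsSurfVia M.γ M.ξ M.D M.μ cayley (Metric.ball 0 1) Q (fun x => h x.2)
      (fun x z => f x.2 z + 0 * ψ z) (fun x => d' x.2) fun x => m' x.2 := by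
  simp only [zero_mul, add_zero]
  exact ⟨hS.measd.comp measurable_snd, hS.measm.comp measurable_snd, ae_snd ac hS.metric,
    ae_snd ac hS.length, ae_snd ac hS.weyl, ae_snd ac hS.area⟩

theorem Data.bsurf (H : Data P' P₀ h φ g f s c w) {Q : Measure (Ω × Ω')} [IsProbabilityMeasure Q]
    (ac : Q.map Prod.snd ≪ P') {τ : Ω × Ω' → ℝ} {d : Ω × Ω' → Met} {m : Ω × Ω' → Measure ℂ}
    (hS : IsSurfVia M.γ M.ξ M.D M.μ cayley (Metric.ball 0 1) Q (fun x => h x.2)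
      (fun x z => f x.2 z + τ x * ψ z) d m) :
    ∃ Q₀, BSurf0 M Q Q₀ (fun x => h x.2) (fun x => φ x.2) (fun x => g x.2)
      (fun x z => s z - c (φ x.2) + τ x * ψ z) {0, 1} (fun x => chart_cayley.pull (d x))
      fun x => (m x).map (kap cayleyInv (Metric.ball 0 1) {1}) := by
  have := H.pair.gff.prob
  obtain ⟨Q₀, a1, a2⟩ := exists_ref Q P₀ (ac.trans H.ac)
  refine ⟨Q₀, inferInstance, a1, freePair_comp H.pair a2, toFinite _, by simp [UH],
    .of_forall fun x => (H.cont.sub continuousOn_const).add (by fun_prop), ?_,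
    hS.metric.mono fun _ k z => k.self _ (chart_cayley.mem (fold_mem z)).1⟩
  simpa only [H.eq, add_assoc] using chart_cayley.surf hS

theorem loc_eq {Q Q₁ Q₂ : Measure Ω} {h φ₁ φ₂ : Ω → Field} {g₁ g₂ f₁ f₂ : Ω → ℂ → ℝ}
    {Z₁ Z₂ V : Set ℂ} {d₁ d₂ : Ω → Met} {m₁ m₂ : Ω → Measure ℂ}
    (h₁ : BSurf0 M Q Q₁ h φ₁ g₁ f₁ Z₁ d₁ m₁) (h₂ : BSurf0 M Q Q₂ h φ₂ g₂ f₂ Z₂ d₂ m₂)
    (hV : closure V ⊆ UH) (e : ∀ ω, ∀ z ∈ V, g₁ ω z + f₁ ω z = g₂ ω z + f₂ ω z) :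
    ∀ᵐ ω ∂Q, ∀ w : Sq, w.o ⊆ V → loc w (d₁ ω, m₁ ω) = loc w (d₂ ω, m₂ ω) := by
  filter_upwards [h₁.surfOf_dbl, h₂.surfOf_dbl] with ω ⟨_, a1, a2, a3, a4⟩ ⟨_, b1, b2, b3, b4⟩ w hw
  have k1 : closure w.o ⊆ UH := (closure_mono hw).trans hV
  have k2 : w.o ⊆ UH := subset_closure.trans k1
  have a5 := a3 _ isOpen_UH subset_rfl
  have b5 := b3 _ isOpen_UH subset_rfl
  refine Prod.ext ((a2 w k2).trans (Eq.trans (ContinuousMap.ext fun p => le_antisymm ?_ ?_)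
    (b2 w k2).symm)) ?_
  · simpa only [exp_zero, one_mul] using EN.T_le_of_weylOn a1 b1 a5 b5 k1 k1 (t := 0)
      (fun z hz => by rw [e ω z (hw hz), add_zero]) p
  · simpa only [exp_zero, one_mul] using EN.T_le_of_weylOn b1 a1 b5 a5 k1 k1 (t := 0)
      (fun z hz => by rw [e ω z (hw hz), add_zero]) p
  · change (m₁ ω).restrict w.o = (m₂ ω).restrict w.o
    have hm := EN.measurableSet_o w
    rw [a4 w k2, b4 w k2, restrict_withDensity hm, restrict_withDensity hm]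
    exact withDensity_congr_ae ((ae_restrict_mem hm).mono fun z hz => by simp only [e ω z (hw hz)])

/-- absolute continuity away from the bump -/
theorem area_ac [IsProbabilityMeasure P] [StandardBorelSpace Ω'] (H : Data P' P₀ h φ g f s c w)
    (hS : IsSurfVia M.γ M.ξ M.D M.μ cayley (Metric.ball 0 1) P' h f d' m')
    (L : Lim P P' d m d' m' a) (hψ : Dir z₀ ψ) (hz : z₀ ∈ UH) {V : Set ℂ} (hV : closure V ⊆ UH)
    (hd : Disjoint V (Metric.ball z₀ (1 / 8)))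
    (ac : M.LDom P' (fun ω => (chart_cayley.pull (d' ω),
      (m' ω).map (kap cayleyInv (Metric.ball 0 1) {1}))) V) :
    M.LDom P (fun ω => (chart_cayley.pull (d ω),
      (m ω).map (kap cayleyInv (Metric.ball 0 1) {1}))) V := by
  obtain ⟨κ, τ, hκ, -, a1, a2⟩ := area_couple H hS L hψ hz
  obtain ⟨Q₁, b1⟩ := H.bsurf a1 a2
  obtain ⟨Q₂, b2⟩ := H.bsurf (τ := fun _ => 0) a1 (surf_snd (ψ := ψ) a1 hS)
  have k : M.LDom (P ⊗ₘ κ) (fun x => (chart_cayley.pull (d' x.2),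
      (m' x.2).map (kap cayleyInv (Metric.ball 0 1) {1}))) V := fun S h1 h2 =>
    measure_eq_zero_iff_ae_notMem.2 (ae_snd a1 (measure_eq_zero_iff_ae_notMem.1 (ac S h1 h2)))
  have k' := k.congr (loc_eq b1 b2 hV fun x z hzV => by
    rw [hψ.zero z (le_of_lt (hV (subset_closure hzV))) (disjoint_left.1 hd hzV), mul_zero, mul_zero])
  exact fun S h1 h2 => measure_eq_zero_iff_ae_notMem.2
    (ae_of_fst (κ := κ) (measure_eq_zero_iff_ae_notMem.1 (k' S h1 h2)))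

end Pool.Agent.Lib.MP_0d9445_pr.Fx
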